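import Pool.Agent.V11294.JO.Split

/-!
# The congruence in `ZMod p`
-/

namespace Pool.Agent.V11294.JO

open Finset Polynomial

lemma cb_map {F K : Type*} [Field F] [Field K] (f : F →+* K) (j : ℕ) : f (cb F j) = cb K j := by
  simp [cb]

lemma dl_map {F K : Type*} [Field F] [Field K] (f : F →+* K) (j : ℕ) : f (dl F j) = dl K j := by
  simp [dl, hk]

lemma hh_map {F K : Type*} [Field F] [Field K] (f : F →+* K) (j : ℕ) : f (hh F j) = hh K j := by
  have h6 : f 6 = 6 := map_ofNat f 6
  simp [hh, ff, cb_map, dl_map, h6]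

lemma inert_of (K : Type*) [Field K] (p n : ℕ) [CharP K p] (hp : p.Prime) (hpn : p = 2 * n + 1)
    (y : K) (hy : y ^ 2 = -7) (he' : (-7 : K) ^ n = -1) : ∑ j ∈ range (n + 1), hh K j = 0 := by
  have h2K := two_ne (K := K) p n hp hpn
  have := Fact.mk hp
  have hyp : y ^ p = -y := by
    have : y ^ p = (y ^ 2) ^ n * y := by
      rw [← pow_mul, ← pow_succ, ← hpn]
    rw [this, hy, he']; ring
  have h2p : (2 : K) ^ p = 2 := by
    have := pow_natCast (K := K) p n hp hpn 2
    push_cast at this; exact this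
  have hy0 : y ≠ 0 := by
    rintro rfl
    have h0 : (-7 : K) = 0 := by rw [← hy]; ring
    rw [h0] at he'
    have hn : n ≠ 0 := by
      rintro rfl
      have := hp.two_le
      omega
    rw [zero_pow hn] at he'
    have h1 : (1 : K) = 0 := by linear_combination he'
    exact one_ne_zero h1
  refine case_inert (K := K) p n hp hpn ((1 + y) / 2) ?_ ?_ ?_
  · field_simp
    linear_combination hy
  · rw [div_pow, h2p, add_pow_char, one_pow, hyp]
    field_simp
    ring
  · have : 2 * ((1 + y) / 2) - 1 = y := by field_simp; ring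
    rw [this]; exact hy0

theorem sum_hh (p n : ℕ) [Fact p.Prime] (hpn : p = 2 * n + 1) (h7 : p ≠ 7) :
    ∑ j ∈ range (n + 1), hh (ZMod p) j = 0 := by
  have hp : p.Prime := Fact.out
  have h2 := two_ne (K := ZMod p) p n hp hpn
  by_cases hsq : IsSquare (-7 : ZMod p)
  · obtain ⟨y, hy⟩ := hsq
    refine case_split p n hp hpn h7 ((1 + y) / 2) ?_
    field_simp
    linear_combination -hy
  · have h7' : (-7 : ZMod p) ≠ 0 := by
      intro h; exact hsq (by rw [h]; exact IsSquare.zero)
    have he : (-7 : ZMod p) ^ n = -1 := by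
      have h1 := ZMod.pow_div_two_eq_neg_one_or_one p h7'
      have h3 : p / 2 = n := by omega
      have h4 := (ZMod.euler_criterion p h7').not.1 hsq
      rw [h3] at h1 h4
      exact h1.resolve_left h4
    obtain ⟨y, hy⟩ := IsAlgClosed.exists_pow_nat_eq (-7 : AlgebraicClosure (ZMod p)) (n := 2)
      (by norm_num)
    have he' : (-7 : AlgebraicClosure (ZMod p)) ^ n = -1 := by
      have := congrArg (algebraMap (ZMod p) (AlgebraicClosure (ZMod p))) he
      rw [map_pow, map_neg, map_neg, map_one, map_ofNat] at this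
      exact this
    have h := inert_of (AlgebraicClosure (ZMod p)) p n hp hpn y hy he'
    apply (algebraMap (ZMod p) (AlgebraicClosure (ZMod p))).injective
    rw [map_sum, map_zero, ← h]
    exact sum_congr rfl fun j _ => hh_map _ j

theorem sum_mod (p n : ℕ) [Fact p.Prime] (hpn : p = 2 * n + 1) (h7 : p ≠ 7) (h3 : 3 < p) :
    ∑ j ∈ range (n + 1), cb (ZMod p) j ^ 3 * dl (ZMod p) j = 0 := by
  have hp : p.Prime := Fact.out
  have h := sum_hh p n hpn h7
  have h6 : (6 : ZMod p) ≠ 0 := by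
    have : ((6 : ℕ) : ZMod p) ≠ 0 := by
      rw [Ne, ZMod.natCast_eq_zero_iff]
      intro hd
      have h1 : p ∣ 2 * 3 := hd
      rcases (hp.dvd_mul).1 h1 with h2 | h2
      · have := Nat.le_of_dvd (by norm_num) h2; omega
      · have := Nat.le_of_dvd (by norm_num) h2; omega
    exact_mod_cast this
  have e : ∑ j ∈ range (n + 1), hh (ZMod p) j =
      6 * ∑ j ∈ range (n + 1), cb (ZMod p) j ^ 3 * dl (ZMod p) j := by
    rw [mul_sum]
    refine sum_congr rfl fun j _ => ?_
    unfold hh ff; ring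
  rw [e] at h
  exact (mul_eq_zero.1 h).resolve_left h6

lemma dl_eq (F : Type*) [Field F] (k : ℕ) :
    dl F k = ∑ i ∈ Ico k (2 * k), ((i : F) + 1)⁻¹ := by
  unfold dl hk
  rw [sum_Ico_eq_sub _ (by omega)]

lemma clear_den (F : Type*) [Field F] (p n : ℕ) (hpn : p = 2 * n + 1)
    (hF : ∀ i, i < 2 * n → ((i : F) + 1) ≠ 0) (k : ℕ) (hk : k ≤ n) :
    (((p - 1).factorial : ℕ) : F) * dl F k =
      ((∑ i ∈ Ico k (2 * k), ((p - 1).factorial / (i + 1)) : ℕ) : F) := by
  rw [dl_eq, mul_sum]
  push_cast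
  refine sum_congr rfl fun i hi => ?_
  have hi' := Finset.mem_Ico.1 hi
  obtain ⟨q, hq⟩ : i + 1 ∣ (p - 1).factorial := Nat.dvd_factorial (by omega) (by omega)
  rw [hq, Nat.mul_div_cancel_left _ (by omega)]
  push_cast
  have := hF i (by omega)
  field_simp

lemma num_dvd (p N : ℕ) (hp : p.Prime) (q : ℚ) (a : ℤ) (h : (N : ℚ) * q = a) (hN : ¬ p ∣ N)
    (ha : (p : ℤ) ∣ a) : (p : ℤ) ∣ q.num := by
  have h1 : (N : ℤ) * q.num = a * q.den := by
    have h2 : (q.num : ℚ) = q * q.den := (Rat.mul_den_eq_num q).symm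
    have : ((N : ℤ) * q.num : ℚ) = ((a * q.den : ℤ) : ℚ) := by
      push_cast
      rw [h2, ← h]; ring
    exact_mod_cast this
  have h3 : (p : ℤ) ∣ N * q.num := by rw [h1]; exact ha.mul_right _
  rcases Int.Prime.dvd_mul' hp h3 with h4 | h4
  · exact absurd (by exact_mod_cast h4) hN
  · exact h4

end Pool.Agent.V11294.JO
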