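import Mathlib

/-!
# Hypergeometric polynomials modulo a prime: generic part
-/

namespace Pool.Agent.V11294.JO

open Finset Polynomial

variable {K : Type*} [Field K]

/-- The Euler derivation. -/
noncomputable def D (y : K[X]) : K[X] := X * derivative y

lemma D_add (a b : K[X]) : D (a + b) = D a + D b := by simp [D, mul_add]

lemma D_sub (a b : K[X]) : D (a - b) = D a - D b := by simp [D, mul_sub]

lemma D_mul (a b : K[X]) : D (a * b) = D a * b + a * D b := by
  simp [D, derivative_mul]; ring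

lemma D_C (a : K) : D (C a : K[X]) = 0 := by simp [D]

lemma D_one : D (1 : K[X]) = 0 := by simp [D]

lemma D_zero : D (0 : K[X]) = 0 := by simp [D]

lemma D_ofNat (n : ℕ) [n.AtLeastTwo] : D (OfNat.ofNat n : K[X]) = 0 := by simp [D]

lemma D_two : D (2 : K[X]) = 0 := D_ofNat 2

lemma D_neg (a : K[X]) : D (-a) = -D a := by simp [D]

lemma D_natCast (n : ℕ) : D (n : K[X]) = 0 := by simp [D]

lemma D_X : D (X : K[X]) = X := by simp [D]

lemma D_pow (a : K[X]) (n : ℕ) : D (a ^ n) = (n : K[X]) * a ^ (n - 1) * D a := by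
  simp [D, derivative_pow]; ring

lemma D_X_pow (n : ℕ) : D ((X : K[X]) ^ n) = (n : K[X]) * X ^ n := by
  rcases n with _ | n
  · simp [D_one]
  · rw [D_pow, D_X]
    simp only [Nat.add_sub_cancel]
    ring

lemma D_X_pow_char (p : ℕ) [CharP K p] : D ((X : K[X]) ^ p) = 0 := by
  rw [D_X_pow]
  have : ((p : ℕ) : K[X]) = 0 := by
    rw [← C_eq_natCast, CharP.cast_eq_zero, C_0]
  rw [this, zero_mul]

lemma D_sum {ι : Type*} (s : Finset ι) (f : ι → K[X]) : D (∑ i ∈ s, f i) = ∑ i ∈ s, D (f i) := by
  simp [D, mul_sum]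

lemma coeff_D (y : K[X]) (m : ℕ) : (D y).coeff m = (m : K) * y.coeff m := by
  rcases m with _ | m
  · simp [D]
  · simp [D, coeff_X_mul, coeff_derivative]
    ring

/-- Euler operator on sequences. -/
def th (y : ℕ → K) : ℕ → K := fun j => (j : K) * y j

/-- `∑_{j ≤ n} y_j e_j`. -/
noncomputable def S (e : ℕ → K[X]) (n : ℕ) (y : ℕ → K) : K[X] :=
  ∑ j ∈ range (n + 1), C (y j) * e j

lemma S_D (e : ℕ → K[X]) (n : ℕ) (A B B' : K[X])
    (h : ∀ j, j ≤ n → A * D (e j) = (j : K[X]) * B * e j + B' * e j) (y : ℕ → K) :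
    A * D (S e n y) = B * S e n (th y) + B' * S e n y := by
  unfold S
  rw [D_sum, mul_sum, mul_sum, mul_sum, ← sum_add_distrib]
  refine sum_congr rfl fun j hj => ?_
  have hj' : j ≤ n := by have := mem_range.1 hj; omega
  have := h j hj'
  rw [D_mul, D_C, th, C_mul, C_eq_natCast]
  linear_combination C (y j) * this

lemma S_shift (e : ℕ → K[X]) (n : ℕ) (P Q : K[X])
    (h : ∀ j, j < n → P * e (j + 1) = Q * e j) (y z : ℕ → K) (hz : z 0 = 0)
    (hzy : ∀ j, j < n → z (j + 1) = y j) (hy : y n = 0) :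
    P * S e n z = Q * S e n y := by
  unfold S
  rw [sum_range_succ', sum_range_succ (fun j => C (y j) * e j), hz, hy]
  simp only [C_0, zero_mul, add_zero]
  rw [mul_sum, mul_sum]
  refine sum_congr rfl fun j hj => ?_
  have hj' : j < n := mem_range.1 hj
  rw [hzy j hj']
  linear_combination C (y j) * h j hj'

lemma S_add (e : ℕ → K[X]) (n : ℕ) (y z : ℕ → K) :
    S e n (fun j => y j + z j) = S e n y + S e n z := by
  unfold S
  rw [← sum_add_distrib]
  exact sum_congr rfl fun j _ => by rw [C_add]; ring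

lemma S_smul (e : ℕ → K[X]) (n : ℕ) (a : K) (y : ℕ → K) :
    S e n (fun j => a * y j) = C a * S e n y := by
  unfold S
  rw [mul_sum]
  exact sum_congr rfl fun j _ => by rw [C_mul]; ring

lemma S_congr (e : ℕ → K[X]) (n : ℕ) {y z : ℕ → K} (h : ∀ j, j ≤ n → y j = z j) :
    S e n y = S e n z := by
  unfold S
  refine sum_congr rfl fun j hj => ?_
  rw [h j (by have := mem_range.1 hj; omega)]

/-- Hypotheses on the pair of coefficient sequences of the second order equation. -/
structure Two (n : ℕ) (c g : ℕ → K) : Prop where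
  c_rec : ∀ j, j < n → ((j : K) + 1) ^ 2 * c (j + 1) = ((j : K) + 1 / 2) ^ 2 * c j
  g_rec : ∀ j, j < n → ((j : K) + 1) ^ 2 * g (j + 1) + 2 * ((j : K) + 1) * c (j + 1) =
    ((j : K) + 1 / 2) ^ 2 * g j + 2 * ((j : K) + 1 / 2) * c j

/-- Hypotheses on the pair of coefficient sequences of the third order equation. -/
structure Three (n : ℕ) (f h : ℕ → K) : Prop where
  f_rec : ∀ j, j < n → ((j : K) + 1) ^ 3 * f (j + 1) = 64 * ((j : K) + 1 / 2) ^ 3 * f j
  h_rec : ∀ j, j < n → ((j : K) + 1) ^ 3 * h (j + 1) + 3 * ((j : K) + 1) ^ 2 * f (j + 1) =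
    64 * (((j : K) + 1 / 2) ^ 3 * h j + 3 * ((j : K) + 1 / 2) ^ 2 * f j)

section eqns

variable (e : ℕ → K[X]) (n : ℕ) (P Q : K[X])
    (hPQ : ∀ j, j < n → P * e (j + 1) = Q * e j)
    (h2 : (2 : K) ≠ 0) (hn : (n : K) + 1 / 2 = 0)
include hPQ h2 hn

lemma eq_c {c g : ℕ → K} (H : Two n c g) :
    4 * (P * S e n (th (th c))) = Q * (4 * S e n (th (th c)) + 4 * S e n (th c) + S e n c) := by
  have key := S_shift e n P Q hPQ (fun j => ((j : K) + 1 / 2) ^ 2 * c j) (th (th c))
    (by simp [th]) (fun j hj => by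
      have := H.c_rec j hj
      simp only [th]; push_cast; linear_combination this) (by simp only [hn]; ring)
  have e1 : S e n (fun j => ((j : K) + 1 / 2) ^ 2 * c j) =
      S e n (th (th c)) + S e n (th c) + C (1 / 4) * S e n c := by
    rw [← S_smul, ← S_add, ← S_add]
    refine S_congr e n fun j _ => ?_
    simp only [th]
    have h4 : (4 : K) ≠ 0 := by
      have : (4 : K) = 2 * 2 := by norm_num
      rw [this]; exact mul_ne_zero h2 h2
    field_simp
    ring
  rw [key, e1]
  have h4 : (4 : K[X]) * C (1 / 4) = 1 := by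
    have h4 : (4 : K) ≠ 0 := by
      have : (4 : K) = 2 * 2 := by norm_num
      rw [this]; exact mul_ne_zero h2 h2
    have : (4 : K[X]) = C 4 := (map_ofNat C 4).symm
    rw [this, ← C_mul, mul_one_div_cancel h4, C_1]
  linear_combination Q * S e n c * h4

lemma eq_g {c g : ℕ → K} (H : Two n c g) :
    4 * (P * (S e n (th (th g)) + 2 * S e n (th c))) =
      Q * (4 * S e n (th (th g)) + 4 * S e n (th g) + S e n g + 8 * S e n (th c)
        + 4 * S e n c) := by
  have key := S_shift e n P Q hPQ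
    (fun j => ((j : K) + 1 / 2) ^ 2 * g j + 2 * ((j : K) + 1 / 2) * c j)
    (fun j => th (th g) j + 2 * th c j)
    (by simp [th]) (fun j hj => by
      have := H.g_rec j hj
      simp only [th]; push_cast; linear_combination this) (by simp only [hn]; ring)
  have e0 : S e n (fun j => th (th g) j + 2 * th c j) = S e n (th (th g)) + 2 * S e n (th c) := by
    have : (2 : K[X]) = C 2 := (map_ofNat C 2).symm
    rw [this, ← S_smul, ← S_add]
  have h4' : (4 : K) ≠ 0 := by
    have : (4 : K) = 2 * 2 := by norm_num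
    rw [this]; exact mul_ne_zero h2 h2
  have e1 : S e n (fun j => ((j : K) + 1 / 2) ^ 2 * g j + 2 * ((j : K) + 1 / 2) * c j) =
      S e n (th (th g)) + S e n (th g) + C (1 / 4) * S e n g + C 2 * S e n (th c) + S e n c := by
    rw [← S_smul, ← S_smul, ← S_add, ← S_add, ← S_add, ← S_add]
    refine S_congr e n fun j _ => ?_
    simp only [th]
    field_simp
    ring
  rw [← e0, key, e1]
  have h4 : (4 : K[X]) * C (1 / 4) = 1 := by
    have : (4 : K[X]) = C 4 := (map_ofNat C 4).symm
    rw [this, ← C_mul, mul_one_div_cancel h4', C_1]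
  have hc2 : (C 2 : K[X]) = 2 := map_ofNat C 2
  rw [hc2]
  linear_combination Q * S e n g * h4

lemma eq_f {f h : ℕ → K} (H : Three n f h) :
    P * S e n (th (th (th f))) =
      Q * (64 * S e n (th (th (th f))) + 96 * S e n (th (th f)) + 48 * S e n (th f)
        + 8 * S e n f) := by
  have key := S_shift e n P Q hPQ (fun j => 64 * ((j : K) + 1 / 2) ^ 3 * f j) (th (th (th f)))
    (by simp [th]) (fun j hj => by
      have := H.f_rec j hj
      simp only [th]; push_cast; linear_combination this) (by simp only [hn]; ring)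
  have e1 : S e n (fun j => 64 * ((j : K) + 1 / 2) ^ 3 * f j) =
      C 64 * S e n (th (th (th f))) + C 96 * S e n (th (th f)) + C 48 * S e n (th f)
        + C 8 * S e n f := by
    rw [← S_smul, ← S_smul, ← S_smul, ← S_smul, ← S_add, ← S_add, ← S_add]
    refine S_congr e n fun j _ => ?_
    simp only [th]
    field_simp
    ring
  rw [key, e1]
  simp only [map_ofNat]

lemma eq_h {f h : ℕ → K} (H : Three n f h) :
    P * (S e n (th (th (th h))) + 3 * S e n (th (th f))) =
      Q * (64 * S e n (th (th (th h))) + 96 * S e n (th (th h)) + 48 * S e n (th h)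
        + 8 * S e n h + 192 * S e n (th (th f)) + 192 * S e n (th f) + 48 * S e n f) := by
  have key := S_shift e n P Q hPQ
    (fun j => 64 * (((j : K) + 1 / 2) ^ 3 * h j + 3 * ((j : K) + 1 / 2) ^ 2 * f j))
    (fun j => th (th (th h)) j + 3 * th (th f) j)
    (by simp [th]) (fun j hj => by
      have := H.h_rec j hj
      simp only [th]; push_cast; linear_combination this) (by simp only [hn]; ring)
  have e0 : S e n (fun j => th (th (th h)) j + 3 * th (th f) j) =
      S e n (th (th (th h))) + 3 * S e n (th (th f)) := by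
    have : (3 : K[X]) = C 3 := (map_ofNat C 3).symm
    rw [this, ← S_smul, ← S_add]
  have e1 : S e n (fun j => 64 * (((j : K) + 1 / 2) ^ 3 * h j + 3 * ((j : K) + 1 / 2) ^ 2 * f j)) =
      C 64 * S e n (th (th (th h))) + C 96 * S e n (th (th h)) + C 48 * S e n (th h)
        + C 8 * S e n h + C 192 * S e n (th (th f)) + C 192 * S e n (th f) + C 48 * S e n f := by
    rw [← S_smul, ← S_smul, ← S_smul, ← S_smul, ← S_smul, ← S_smul, ← S_smul,
      ← S_add, ← S_add, ← S_add, ← S_add, ← S_add, ← S_add]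
    refine S_congr e n fun j _ => ?_
    simp only [th]
    field_simp
    ring
  rw [← e0, key, e1]
  simp only [map_ofNat]

end eqns

end Pool.Agent.V11294.JO
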