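import Pool.Agent.V11294.JO.Landen

/-!
# Clausen's formula modulo a prime
-/

namespace Pool.Agent.V11294.JO

open Finset Polynomial

variable {K : Type*} [Field K]

/-- The family `(X(1-X)/16)^j`. -/
noncomputable def eR (j : ℕ) : K[X] := (C (1 / 16) * (X * (1 - X))) ^ j

lemma eR_D (j : ℕ) : (1 - X) * D (eR j : K[X]) = (j : K[X]) * (1 - 2 * X) * eR j + 0 * eR j := by
  unfold eR
  rcases j with _ | j
  · simp [D_one]
  · rw [D_pow, D_mul, D_C, D_mul, D_sub, D_one, D_X]
    simp only [Nat.add_sub_cancel]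
    ring

lemma eR_shift (h16 : (16 : K) ≠ 0) (j : ℕ) :
    16 * (eR (j + 1) : K[X]) = X * (1 - X) * eR j := by
  unfold eR
  have : (16 : K[X]) * C (1 / 16) = 1 := by
    rw [← map_ofNat C 16, ← C_mul, mul_one_div_cancel h16, C_1]
  rw [pow_succ]
  linear_combination (C (1 / 16) * (X * (1 - X))) ^ j * X * (1 - X) * this

lemma eN_D (j : ℕ) : 1 * D (eN j : K[X]) = (j : K[X]) * 1 * eN j + 0 * eN j := by
  unfold eN
  rw [D_X_pow]; ring

lemma eN_shift (j : ℕ) : 1 * (eN (j + 1) : K[X]) = X * eN j := by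
  unfold eN; ring

/-- The operator `Q`. -/
noncomputable def Q (y : K[X]) : K[X] :=
  2 * (1 - X) ^ 2 * D (D (D y)) - 6 * X * (1 - X) * D (D y) - 2 * X * (2 - 3 * X) * D y
    - X * (1 - 2 * X) * y

lemma Q_sub (a b : K[X]) : Q (a - b) = Q a - Q b := by
  simp only [Q, D_sub]; ring

lemma Q_add (a b : K[X]) : Q (a + b) = Q a + Q b := by
  simp only [Q, D_add]; ring

lemma Q_const_mul (a b : K[X]) (ha : D a = 0) : Q (a * b) = a * Q b := by
  simp only [Q, D_mul, ha, zero_mul, zero_add]; ring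

lemma Q_mul (a b : K[X]) : Q (a * b) = Q a * b
    + 2 * (1 - X) ^ 2 * (3 * D (D a) * D b + 3 * D a * D (D b) + a * D (D (D b)))
    - 6 * X * (1 - X) * (2 * D a * D b + a * D (D b)) - 2 * X * (2 - 3 * X) * a * D b := by
  simp only [Q, D_mul, D_add]; ring

lemma Q_R (n : ℕ) (y : ℕ → K) :
    (1 - X) * Q (S eR n y) = (1 - 2 * X) * (2 * S eR n (th (th (th y)))
      - X * (1 - X) * (8 * S eR n (th (th (th y))) + 12 * S eR n (th (th y)) + 6 * S eR n (th y)
        + S eR n y)) := by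
  have e1 := S_D eR n (1 - X) (1 - 2 * X) 0 (fun j _ => eR_D j) y
  have f1 := S_D eR n (1 - X) (1 - 2 * X) 0 (fun j _ => eR_D j) (th y)
  have g1 := S_D eR n (1 - X) (1 - 2 * X) 0 (fun j _ => eR_D j) (th (th y))
  rw [zero_mul, add_zero] at e1 f1 g1
  have e2 := congrArg D e1
  have f2 := congrArg D f1
  simp only [D_mul, D_sub, D_one, D_X, D_two, zero_mul, zero_add, zero_sub] at e2 f2
  have e3 := congrArg D e2
  simp only [D_mul, D_sub, D_add, D_one, D_X, D_two, D_neg, zero_mul, zero_add, zero_sub] at e3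
  unfold Q
  linear_combination 2 * (1 - X) ^ 2 * e3 - 2 * X * (1 - X) * e2 - 2 * X * (1 - X) * e1
    + 2 * (1 - X) * (1 - 2 * X) * f2 - 8 * X * (1 - X) * f1 + 2 * (1 - 2 * X) ^ 2 * g1

lemma coeff_Q (y : K[X]) (m : ℕ) :
    (Q y).coeff (m + 2) = 2 * ((m : K) + 2) ^ 3 * y.coeff (m + 2)
      - (4 * ((m : K) + 1) ^ 3 + 6 * ((m : K) + 1) ^ 2 + 4 * ((m : K) + 1) + 1) * y.coeff (m + 1)
      + 2 * ((m : K) + 1) ^ 3 * y.coeff m := by
  have : Q y = C 2 * D (D (D y)) - X * (C 4 * D (D (D y)) + C 6 * D (D y) + C 4 * D y + y)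
      + X ^ 2 * (C 2 * (D (D (D y)) + C 3 * D (D y) + C 3 * D y + y)) := by
    simp only [map_ofNat]
    unfold Q; ring
  rw [this, coeff_add, coeff_sub, coeff_C_mul, coeff_D, coeff_D, coeff_D, coeff_X_mul,
    coeff_X_pow_mul]
  simp only [coeff_add, coeff_C_mul, coeff_D]
  push_cast
  ring

lemma coeff_Q_one (y : K[X]) : (Q y).coeff 1 = 2 * y.coeff 1 - y.coeff 0 := by
  have : Q y = C 2 * D (D (D y)) - X * (C 4 * D (D (D y)) + C 6 * D (D y) + C 4 * D y + y)
      + X ^ 2 * (C 2 * (D (D (D y)) + C 3 * D (D y) + C 3 * D y + y)) := by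
    simp only [map_ofNat]
    unfold Q; ring
  have hx : ∀ q : K[X], (X * q).coeff 1 = q.coeff 0 := fun q => coeff_X_mul q 0
  rw [this, coeff_add, coeff_sub, coeff_C_mul, coeff_D, coeff_D, coeff_D, hx, coeff_X_pow_mul']
  simp only [coeff_add, coeff_C_mul, coeff_D]
  simp

lemma Q_uniq (p : ℕ) [CharP K p] (hp : p.Prime) (h2 : (2 : K) ≠ 0) (Z : K[X]) (hZ : Q Z = 0)
    (h0 : Z.coeff 0 = 0) (hpp : Z.coeff p = 0) (hd : Z.natDegree < 2 * p) : Z = 0 := by
  have key : ∀ m, m < 2 * p → Z.coeff m = 0 := by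
    intro m
    induction m using Nat.strong_induction_on with
    | _ m ih =>
      intro hm
      rcases m with _ | _ | m
      · exact h0
      · have := coeff_Q_one Z
        rw [hZ, coeff_zero, h0, sub_zero] at this
        exact (mul_eq_zero.1 this.symm).resolve_left h2
      · by_cases hmp : m + 2 = p
        · rw [show m + 1 + 1 = m + 2 from rfl, hmp]; exact hpp
        · have h1 := coeff_Q Z m
          rw [hZ, coeff_zero, ih m (by omega) (by omega), ih (m + 1) (by omega) (by omega),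
            mul_zero, mul_zero, sub_zero, add_zero] at h1
          have h3 : ((m + 2 : ℕ) : K) ≠ 0 := natCast_ne_zero_of p hp _ (by omega) hm hmp
          push_cast at h3
          have := (mul_eq_zero.1 h1.symm).resolve_left (mul_ne_zero h2 (pow_ne_zero 3 h3))
          exact this
  ext m
  by_cases hm : m < 2 * p
  · rw [key m hm, coeff_zero]
  · rw [coeff_eq_zero_of_natDegree_lt (by omega), coeff_zero]

/-- The truncated `log (1 - X)`. -/
noncomputable def ellE (p : ℕ) : K[X] :=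
  ∑ j ∈ Ico 1 p, C (-(j : K)⁻¹) * X ^ j

lemma D_ellE (p : ℕ) [CharP K p] (hp : p.Prime) :
    (1 - X) * D (ellE p : K[X]) = -(X - X ^ p) := by
  have h1 : D (ellE p : K[X]) = -∑ j ∈ Ico 1 p, X ^ j := by
    unfold ellE
    rw [D_sum, ← sum_neg_distrib]
    refine sum_congr rfl fun j hj => ?_
    have hj' := Finset.mem_Ico.1 hj
    have hj0 : (j : K) ≠ 0 := natCast_ne_zero_of p hp j (by omega) (by omega) (by omega)
    rw [D_mul, D_C, D_X_pow, zero_mul, zero_add]
    have : (j : K[X]) = C (j : K) := (C_eq_natCast j).symm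
    rw [this, ← mul_assoc, ← C_mul, neg_mul, inv_mul_cancel₀ hj0]
    simp
  rw [h1, sum_Ico_eq_sum_range]
  have h2 : ∀ m : ℕ, (1 - X : K[X]) * ∑ k ∈ range m, X ^ (1 + k) = X - X ^ (m + 1) := by
    intro m
    induction m with
    | zero => simp
    | succ m ih =>
      rw [sum_range_succ, mul_add, ih]
      ring
  rw [mul_neg, h2, show p - 1 + 1 = p by have := hp.pos; omega]

lemma natDegree_ellE_le (p : ℕ) : (ellE p : K[X]).natDegree ≤ p - 1 := by
  unfold ellE
  refine natDegree_sum_le_of_forall_le _ _ fun j hj => ?_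
  refine (natDegree_C_mul_X_pow_le _ _).trans ?_
  have := Finset.mem_Ico.1 hj
  omega

lemma coeff_zero_ellE (p : ℕ) : (ellE p : K[X]).coeff 0 = 0 := by
  unfold ellE
  rw [finsetSum_coeff]
  refine sum_eq_zero fun j hj => ?_
  have := Finset.mem_Ico.1 hj
  rw [coeff_C_mul_X_pow, if_neg (by omega)]

lemma natDegree_eR_le (n j : ℕ) (hj : j ≤ n) : (eR j : K[X]).natDegree ≤ 2 * n := by
  unfold eR
  refine natDegree_pow_le.trans ?_
  have : (C (1 / 16) * (X * (1 - X)) : K[X]).natDegree ≤ 2 := by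
    refine (natDegree_C_mul_le _ _).trans (natDegree_mul_le.trans ?_)
    have h1 : (X : K[X]).natDegree ≤ 1 := natDegree_X_le
    have h2 : (1 - X : K[X]).natDegree ≤ 1 := by
      refine (natDegree_sub_le _ _).trans ?_
      simp
    omega
  nlinarith

lemma natDegree_eN_le (n j : ℕ) (hj : j ≤ n) : (eN j : K[X]).natDegree ≤ n := by
  unfold eN
  rw [natDegree_X_pow]; omega

lemma coeff_zero_R (n : ℕ) (y : ℕ → K) : (S eR n y).coeff 0 = y 0 := by
  unfold S
  rw [finsetSum_coeff, sum_range_succ']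
  simp [eR, mul_pow, coeff_zero_eq_eval_zero, eval_pow]

lemma coeff_N (n : ℕ) (y : ℕ → K) (m : ℕ) (hm : m ≤ n) : (S eN n y).coeff m = y m := by
  unfold S
  rw [finsetSum_coeff, Finset.sum_eq_single m]
  · simp [eN]
  · intro b _ hb
    rw [coeff_C_mul, eN, coeff_X_pow, if_neg (Ne.symm hb), mul_zero]
  · intro h; exact absurd (mem_range.2 (by omega)) h

lemma coeff_top_R (n : ℕ) (y : ℕ → K) : (S eR n y).coeff (2 * n) = y n * (-1 / 16) ^ n := by
  unfold S
  rw [finsetSum_coeff, sum_range_succ]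
  rw [sum_eq_zero, zero_add, coeff_C_mul]
  · congr 1
    unfold eR
    have hd : (C (1 / 16) * (X * (1 - X)) : K[X]).natDegree ≤ 2 := by
      refine (natDegree_C_mul_le _ _).trans (natDegree_mul_le.trans ?_)
      have h1 : (X : K[X]).natDegree ≤ 1 := natDegree_X_le
      have h2 : (1 - X : K[X]).natDegree ≤ 1 := by
        refine (natDegree_sub_le _ _).trans ?_
        simp
      omega
    have := coeff_pow_of_natDegree_le (m := n) hd
    rw [mul_comm 2 n, this]
    congr 1
    rw [coeff_C_mul, mul_sub, mul_one, coeff_sub, ← pow_two, coeff_X_pow, coeff_X]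
    simp
    ring
  · intro j hj
    have hj' := mem_range.1 hj
    rw [coeff_C_mul]
    have h1 := natDegree_eR_le (K := K) j j le_rfl
    rw [coeff_eq_zero_of_natDegree_lt (by omega), mul_zero]

section main

variable (p n : ℕ) [CharP K p] (hp : p.Prime) (hpn : p = 2 * n + 1)
include hp hpn

omit [CharP K p] hp hpn in
lemma one_sub_X_ne : (1 - X : K[X]) ≠ 0 := by
  intro h
  have := congrArg (fun q => coeff q 0) h
  simp at this

omit [CharP K p] hp hpn in
lemma sixteen_ne (h2 : (2 : K) ≠ 0) : (16 : K) ≠ 0 := by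
  have : (16 : K) = 2 ^ 4 := by norm_num
  rw [this]; exact pow_ne_zero _ h2

omit [CharP K p] hp hpn in
lemma D_N (y : ℕ → K) : D (S eN n y) = S eN n (th y) := by
  have := S_D eN n 1 1 0 (fun j _ => eN_D j) y
  linear_combination this

lemma Q_N_sq {c g : ℕ → K} (H : Two n c g) : Q (S eN n c ^ 2) = 0 := by
  have h2 := two_ne (K := K) p n hp hpn
  have hA := eq_c eN n 1 X (fun j _ => eN_shift j) h2 (n_half p n hp hpn) H
  rw [← D_N, ← D_N] at hA
  have hB := congrArg D hA
  simp only [D_mul, D_add, D_one, D_X] at hB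
  rw [sq, Q_mul]
  unfold Q
  have h4 : D (4 : K[X]) = 0 := D_ofNat 4
  rw [h4] at hB
  linear_combination (1 - X) * S eN n c * hB + 3 * (1 - X) * D (S eN n c) * hA - X * S eN n c * hA

lemma Q_N_mul {c g : ℕ → K} (H : Two n c g) : Q (S eN n c * S eN n g) =
    -6 * (1 - X) ^ 2 * D (D (S eN n c ^ 2)) + 12 * X * (1 - X) * D (S eN n c ^ 2)
      + 2 * X * (2 - 3 * X) * S eN n c ^ 2 := by
  have h2 := two_ne (K := K) p n hp hpn
  have hA := eq_c eN n 1 X (fun j _ => eN_shift j) h2 (n_half p n hp hpn) H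
  have hG := eq_g eN n 1 X (fun j _ => eN_shift j) h2 (n_half p n hp hpn) H
  rw [← D_N, ← D_N] at hA
  rw [← D_N n (th g), ← D_N n g, ← D_N n c] at hG
  have hB := congrArg D hA
  have hH := congrArg D hG
  have h4 : D (4 : K[X]) = 0 := D_ofNat 4
  have h8 : D (8 : K[X]) = 0 := D_ofNat 8
  simp only [D_mul, D_add, D_one, D_X, D_two, h4, h8] at hB hH
  have h22 : (2 : K[X]) ≠ 0 := by
    rw [← map_ofNat C 2, Ne, C_eq_zero]; exact h2
  apply mul_left_cancel₀ h22
  rw [Q_mul]
  unfold Q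
  simp only [sq, D_mul, D_add]
  linear_combination (1 - X) * (S eN n c * hH + S eN n g * hB)
    + 3 * (1 - X) * (D (S eN n c) * hG + D (S eN n g) * hA)
    - X * (S eN n c * hG + S eN n g * hA) + 4 * (1 - X) * S eN n c * hA

lemma D_ellE2 : (1 - X) ^ 2 * D (D (ellE p : K[X])) = -(X * (1 - X ^ p)) := by
  have e1 := D_ellE (K := K) p hp
  have e2 := congrArg D e1
  rw [D_mul, D_sub, D_one, D_X, D_neg, D_sub, D_X, D_X_pow_char (K := K) p] at e2
  linear_combination (1 - X) * e2 + X * e1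

lemma D_ellE3 : (1 - X) ^ 3 * D (D (D (ellE p : K[X]))) = -((1 - X ^ p) * X * (1 + X)) := by
  have e1 := D_ellE2 (K := K) p n hp hpn
  have e2 := congrArg D e1
  rw [pow_two, D_mul, D_mul, D_sub, D_one, D_X, D_neg, D_mul, D_sub, D_X, D_one,
    D_X_pow_char (K := K) p] at e2
  linear_combination (1 - X) * e2 + 2 * X * e1

/-- Clausen's formula modulo `p`. -/
theorem clausen_f {c g f h : ℕ → K} (H : Two n c g) (H3 : Three n f h) (hc0 : c 0 = 1)
    (hf0 : f 0 = 1) : S eR n f = S eN n c ^ 2 := by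
  have h2 := two_ne (K := K) p n hp hpn
  have h16 := sixteen_ne h2
  have h1X : (1 - X : K[X]) ≠ 0 := one_sub_X_ne
  have hQ1 := Q_N_sq p n hp hpn H
  have hR := eq_f eR n 16 (X * (1 - X)) (fun j _ => eR_shift h16 j) h2 (n_half p n hp hpn) H3
  have hQR := Q_R n f
  have h8 : (8 : K[X]) ≠ 0 := by
    rw [← map_ofNat C 8, Ne, C_eq_zero]
    have : (8 : K) = 2 ^ 3 := by norm_num
    rw [this]; exact pow_ne_zero _ h2
  have hQ2 : Q (S eR n f) = 0 := by
    apply mul_left_cancel₀ (mul_ne_zero h8 h1X)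
    linear_combination 8 * hQR + (1 - 2 * X) * hR
  have hd : (S eR n f - S eN n c ^ 2).natDegree < p := by
    have a1 : (S eR n f).natDegree ≤ 2 * n := natDegree_S_le _ _ _ _ (natDegree_eR_le n)
    have a2 : (S eN n c ^ 2).natDegree ≤ 2 * n := by
      refine natDegree_pow_le.trans ?_
      have : (S eN n c).natDegree ≤ n := natDegree_S_le _ _ _ _ (natDegree_eN_le n)
      omega
    have a3 := natDegree_sub_le_of_le a1 a2
    simp only [max_self] at a3
    omega
  have := Q_uniq p hp h2 (S eR n f - S eN n c ^ 2) (by rw [Q_sub, hQ1, hQ2, sub_zero])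
    (by
      rw [coeff_sub, coeff_zero_R, pow_two, mul_coeff_zero, coeff_N n c 0 (Nat.zero_le _), hc0, hf0]
      ring)
    (coeff_eq_zero_of_natDegree_lt hd) (by omega)
  exact sub_eq_zero.1 this

/-- The derivative form of Clausen's formula modulo `p`. -/
theorem clausen_h {c g f h : ℕ → K} (H : Two n c g) (H3 : Three n f h) (hc0 : c 0 = 1)
    (hf0 : f 0 = 1) (hcn : c n = 1) (hg0 : g 0 = 0) (hh0 : h 0 = 0) :
    (1 - X ^ p) * S eR n h = (1 - 2 * X ^ p) * (S eN n c * S eN n g) - S eN n c ^ 2 * ellE p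
      + C (2 * g n - h n * (-1 / 16) ^ n) * (X ^ p * S eN n c ^ 2) := by
  have h2 := two_ne (K := K) p n hp hpn
  have h16 := sixteen_ne h2
  have h1X : (1 - X : K[X]) ≠ 0 := one_sub_X_ne
  have h8 : (8 : K[X]) ≠ 0 := by
    rw [← map_ofNat C 8, Ne, C_eq_zero]
    have : (8 : K) = 2 ^ 3 := by norm_num
    rw [this]; exact pow_ne_zero _ h2
  have hq : D ((X : K[X]) ^ p) = 0 := D_X_pow_char p
  have hQw := Q_N_sq p n hp hpn H
  have hQug := Q_N_mul p n hp hpn H
  have hcl := clausen_f p n hp hpn H H3 hc0 hf0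
  set w : K[X] := S eN n c ^ 2 with hw
  have hRh := eq_h eR n 16 (X * (1 - X)) (fun j _ => eR_shift h16 j) h2 (n_half p n hp hpn) H3
  have hQR := Q_R n h
  have e1 := S_D eR n (1 - X) (1 - 2 * X) 0 (fun j _ => eR_D j) f
  have f1 := S_D eR n (1 - X) (1 - 2 * X) 0 (fun j _ => eR_D j) (th f)
  rw [zero_mul, add_zero] at e1 f1
  have e2 := congrArg D e1
  simp only [D_mul, D_sub, D_one, D_X, D_two, zero_mul, zero_add, zero_sub] at e2
  rw [hcl] at e1 e2 hRh
  have hQh : Q (S eR n h) = -6 * (1 - X) * (1 - 2 * X) * D (D w) + 6 * X * (3 - 4 * X) * D w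
      + 6 * X * (1 - 2 * X) * w := by
    apply mul_left_cancel₀ (mul_ne_zero h8 h1X)
    linear_combination 8 * hQR + (1 - 2 * X) * hRh + 48 * (1 - X) * (1 - 2 * X) * e2
      - 96 * X * (1 - X) * e1 + 48 * (1 - 2 * X) ^ 2 * f1
  have l1 := D_ellE (K := K) p hp
  have l2 := D_ellE2 (K := K) p n hp hpn
  have l3 := D_ellE3 (K := K) p n hp hpn
  have hQE := Q_mul w (ellE p : K[X])
  rw [hQw] at hQE
  set Z : K[X] := (1 - X ^ p) * S eR n h - (1 - 2 * X ^ p) * (S eN n c * S eN n g)
    + w * ellE p with hZdef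
  have d2 : D ((1 - X ^ p) : K[X]) = 0 := by
    rw [D_sub, D_one, hq]; ring
  have d3 : D ((1 - 2 * X ^ p) : K[X]) = 0 := by
    rw [D_sub, D_one, D_mul, D_two, hq]; ring
  have hQZ : Q Z = 0 := by
    rw [hZdef, Q_add, Q_sub, Q_const_mul _ _ d2, Q_const_mul _ _ d3, hQh, hQug, hQE]
    apply mul_left_cancel₀ h1X
    linear_combination (6 * (1 - X) ^ 2 * D (D w) - 12 * X * (1 - X) * D w
        - 2 * X * (2 - 3 * X) * w) * l1
      + (6 * (1 - X) * D w - 6 * X * w) * l2 + 2 * w * l3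
  have hdR : (S eR n h).natDegree ≤ 2 * n := natDegree_S_le _ _ _ _ (natDegree_eR_le n)
  have hdc : (S eN n c).natDegree ≤ n := natDegree_S_le _ _ _ _ (natDegree_eN_le n)
  have hdg : (S eN n g).natDegree ≤ n := natDegree_S_le _ _ _ _ (natDegree_eN_le n)
  have hdug : (S eN n c * S eN n g).natDegree ≤ 2 * n := by
    refine natDegree_mul_le.trans ?_
    omega
  have hdw : w.natDegree ≤ 2 * n := by
    rw [hw]
    refine natDegree_pow_le.trans ?_
    omega
  have hdl : (ellE p : K[X]).natDegree ≤ 2 * n := by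
    refine (natDegree_ellE_le (K := K) p).trans (by omega)
  have hdXp : ((X : K[X]) ^ p).natDegree ≤ p := natDegree_X_pow_le p
  have hd1 : (1 - X ^ p : K[X]).natDegree ≤ p := by
    refine (natDegree_sub_le _ _).trans ?_
    simp
  have hd2 : (1 - 2 * X ^ p : K[X]).natDegree ≤ p := by
    refine (natDegree_sub_le _ _).trans ?_
    have : (2 * X ^ p : K[X]).natDegree ≤ p := by
      rw [← map_ofNat C 2]
      exact (natDegree_C_mul_le _ _).trans hdXp
    simp only [natDegree_one]
    omega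
  have hdZ : Z.natDegree < 2 * p := by
    have a1 : ((1 - X ^ p) * S eR n h).natDegree ≤ 2 * n + p := by
      refine natDegree_mul_le.trans ?_
      omega
    have a2 : ((1 - 2 * X ^ p) * (S eN n c * S eN n g)).natDegree ≤ 2 * n + p := by
      refine natDegree_mul_le.trans ?_
      omega
    have a3 : (w * ellE p).natDegree ≤ 2 * n + p := by
      refine natDegree_mul_le.trans ?_
      omega
    have a4 := natDegree_add_le_of_le (natDegree_sub_le_of_le a1 a2) a3
    rw [← hZdef] at a4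
    simp only [max_self] at a4
    omega
  have hN0 : (S eN n c).coeff 0 = 1 := by rw [coeff_N n c 0 (Nat.zero_le _), hc0]
  have hNg0 : (S eN n g).coeff 0 = 0 := by rw [coeff_N n g 0 (Nat.zero_le _), hg0]
  have hw0 : w.coeff 0 = 1 := by rw [hw, pow_two, mul_coeff_zero, hN0]; ring
  have hZ0 : Z.coeff 0 = 0 := by
    rw [hZdef, coeff_add, coeff_sub, mul_coeff_zero, mul_coeff_zero, mul_coeff_zero,
      mul_coeff_zero, coeff_zero_R, hNg0, coeff_zero_ellE, hh0]
    ring
  have hZ : Z = C (Z.coeff p) * (X ^ p * w) := by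
    have d1 : D (C (Z.coeff p) : K[X]) = 0 := D_C _
    have hMX : Q (C (Z.coeff p) * (X ^ p * w)) = 0 := by
      rw [Q_const_mul _ _ d1, Q_const_mul _ _ hq, hQw]; ring
    have := Q_uniq p hp h2 (Z - C (Z.coeff p) * (X ^ p * w)) (by rw [Q_sub, hQZ, hMX, sub_zero])
      (by
        rw [coeff_sub, hZ0, coeff_C_mul, mul_coeff_zero, coeff_X_pow, if_neg hp.pos.ne]
        ring)
      (by
        rw [coeff_sub, coeff_C_mul]
        have := coeff_X_pow_mul w p 0
        rw [zero_add] at this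
        rw [this, hw0]; ring)
      (by
        have a5 : (C (Z.coeff p) * (X ^ p * w)).natDegree ≤ 2 * p - 1 := by
          refine (natDegree_C_mul_le _ _).trans (natDegree_mul_le.trans ?_)
          omega
        have a6 : Z.natDegree ≤ 2 * p - 1 := by omega
        have a7 := natDegree_sub_le_of_le a6 a5
        simp only [max_self] at a7
        have := hp.pos
        omega)
    exact sub_eq_zero.1 this
  have htopc : (S eN n c * S eN n g).coeff (2 * n) = g n := by
    have := coeff_mul_add_eq_of_natDegree_le hdc hdg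
    rw [two_mul, this, coeff_N n c n le_rfl, coeff_N n g n le_rfl, hcn, one_mul]
  have htopw : w.coeff (2 * n) = 1 := by
    have := coeff_mul_add_eq_of_natDegree_le hdc hdc
    rw [hw, pow_two, two_mul, this, coeff_N n c n le_rfl, hcn, one_mul]
  have htop : Z.coeff (2 * n + p) = 2 * g n - h n * (-1 / 16) ^ n := by
    rw [hZdef]
    have b1 : ((1 - X ^ p) * S eR n h).coeff (2 * n + p) = - (h n * (-1 / 16) ^ n) := by
      rw [sub_mul, one_mul, coeff_sub, coeff_X_pow_mul,
        coeff_top_R, coeff_eq_zero_of_natDegree_lt (by have := hp.pos; omega)]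
      ring
    have b2 : ((1 - 2 * X ^ p) * (S eN n c * S eN n g)).coeff (2 * n + p) = - (2 * g n) := by
      rw [sub_mul, one_mul, coeff_sub, mul_assoc, ← map_ofNat C 2, coeff_C_mul, coeff_X_pow_mul,
        htopc, coeff_eq_zero_of_natDegree_lt (by have := hp.pos; omega)]
      ring
    have b3 : (w * ellE p).coeff (2 * n + p) = 0 := by
      refine coeff_eq_zero_of_natDegree_lt ?_
      refine lt_of_le_of_lt natDegree_mul_le ?_
      omega
    rw [coeff_add, coeff_sub, b1, b2, b3]; ring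
  have hκ : Z.coeff p = 2 * g n - h n * (-1 / 16) ^ n := by
    have := congrArg (fun q => coeff q (2 * n + p)) hZ
    simp only [coeff_C_mul, coeff_X_pow_mul] at this
    rw [htop, htopw, mul_one] at this
    exact this.symm
  rw [hκ] at hZ
  linear_combination hZ

end main

end Pool.Agent.V11294.JO
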