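import Pool.Agent.V11294.JO.Clausen

/-!
# The concrete sequences
-/

namespace Pool.Agent.V11294.JO

open Finset Polynomial

variable {K : Type*} [Field K]

/-- Harmonic numbers in `K`. -/
def hk (K : Type*) [Field K] (m : ℕ) : K := ∑ i ∈ range m, ((i : K) + 1)⁻¹

/-- Central binomial coefficients in `K`. -/
def cb (K : Type*) [Field K] (j : ℕ) : K := (Nat.centralBinom j : K)

/-- `H_{2j} - H_j`. -/
def dl (K : Type*) [Field K] (j : ℕ) : K := hk K (2 * j) - hk K j

def cc (K : Type*) [Field K] (j : ℕ) : K := cb K j ^ 2 / 16 ^ j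
def gg (K : Type*) [Field K] (j : ℕ) : K := cc K j * (4 * dl K j)
def ff (K : Type*) [Field K] (j : ℕ) : K := cb K j ^ 3
def hh (K : Type*) [Field K] (j : ℕ) : K := ff K j * (6 * dl K j)

lemma cb_succ (j : ℕ) : ((j : K) + 1) * cb K (j + 1) = 2 * (2 * (j : K) + 1) * cb K j := by
  have := congrArg (Nat.cast (R := K)) (Nat.succ_mul_centralBinom_succ j)
  push_cast at this
  unfold cb
  linear_combination this

section main

variable (p n : ℕ) [CharP K p] (hp : p.Prime) (hpn : p = 2 * n + 1)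
include hp hpn

lemma ne1 (j : ℕ) (hj : j < n) : (j : K) + 1 ≠ 0 := by
  have := natCast_ne_zero_of (K := K) p hp (j + 1) (by omega) (by omega) (by omega)
  push_cast at this; exact this

lemma ne2 (j : ℕ) (hj : j < n) : 2 * (j : K) + 1 ≠ 0 := by
  have := natCast_ne_zero_of (K := K) p hp (2 * j + 1) (by omega) (by omega) (by omega)
  push_cast at this; exact this

lemma dl_succ (j : ℕ) (hj : j < n) :
    dl K (j + 1) = dl K j + (2 * (j : K) + 1)⁻¹ - (2 * ((j : K) + 1))⁻¹ := by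
  have h1 := ne1 (K := K) p n hp hpn j hj
  have h2 := ne2 (K := K) p n hp hpn j hj
  have h3 := two_ne (K := K) p n hp hpn
  unfold dl hk
  rw [show 2 * (j + 1) = 2 * j + 1 + 1 by ring, sum_range_succ, sum_range_succ, sum_range_succ]
  push_cast
  have h4 : (2 * (j : K) + 1 + 1) ≠ 0 := by
    have : (2 * (j : K) + 1 + 1) = 2 * ((j : K) + 1) := by ring
    rw [this]; exact mul_ne_zero h3 h1
  have h5 : (2 * (j : K) + 1 + 1)⁻¹ = (2 * ((j : K) + 1))⁻¹ := by congr 1; ring
  have h6 : ((j : K) + 1)⁻¹ = (2 * ((j : K) + 1))⁻¹ + (2 * ((j : K) + 1))⁻¹ := by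
    field_simp; norm_num
  rw [h5, h6]; ring

lemma cc_succ (j : ℕ) : ((j : K) + 1) ^ 2 * cc K (j + 1) = ((j : K) + 1 / 2) ^ 2 * cc K j := by
  have h3 := two_ne (K := K) p n hp hpn
  have h16 := sixteen_ne h3
  have h1 := cb_succ (K := K) j
  unfold cc
  have e : ((j : K) + 1) ^ 2 * (cb K (j + 1) ^ 2 / 16 ^ (j + 1)) =
      (((j : K) + 1) * cb K (j + 1)) ^ 2 / 16 ^ (j + 1) := by ring
  rw [e, h1, pow_succ]
  have h16' : (16 : K) ^ j ≠ 0 := pow_ne_zero _ h16
  field_simp
  ring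

lemma two_K : Two n (cc K) (gg K) := by
  have h3 := two_ne (K := K) p n hp hpn
  refine ⟨fun j _ => cc_succ p n hp hpn j, fun j hj => ?_⟩
  have h1 := ne1 (K := K) p n hp hpn j hj
  have h2 := ne2 (K := K) p n hp hpn j hj
  have hd := dl_succ (K := K) p n hp hpn j hj
  have hc := cc_succ (K := K) p n hp hpn j
  unfold gg
  rw [hd]
  have hx : (2 * (j : K) + 1) * (2 * (j : K) + 1)⁻¹ = 1 := mul_inv_cancel₀ h2
  have hy : (2 * ((j : K) + 1)) * (2 * ((j : K) + 1))⁻¹ = 1 := mul_inv_cancel₀ (mul_ne_zero h3 h1)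
  have ht : 2 * (1 / 2 : K) = 1 := mul_one_div_cancel h3
  generalize (2 * (j : K) + 1)⁻¹ = x at *
  generalize (2 * ((j : K) + 1))⁻¹ = y at *
  generalize (1 / 2 : K) = t at *
  linear_combination 4 * (dl K j + x - y) * hc + 4 * y * hc - 2 * (j + 1) * cc K (j + 1) * hy
    + 2 * (j + t) * cc K j * hx + 2 * (j + t) * cc K j * x * ht

lemma three_K : Three n (ff K) (hh K) := by
  have h3 := two_ne (K := K) p n hp hpn
  have hf : ∀ j, j < n → ((j : K) + 1) ^ 3 * ff K (j + 1) = 64 * ((j : K) + 1 / 2) ^ 3 * ff K j := by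
    intro j _
    have h1 := cb_succ (K := K) j
    unfold ff
    have e : ((j : K) + 1) ^ 3 * (cb K (j + 1) ^ 3) = (((j : K) + 1) * cb K (j + 1)) ^ 3 := by ring
    rw [e, h1]
    field_simp
    ring
  refine ⟨hf, fun j hj => ?_⟩
  have h1 := ne1 (K := K) p n hp hpn j hj
  have h2 := ne2 (K := K) p n hp hpn j hj
  have hd := dl_succ (K := K) p n hp hpn j hj
  have hc := hf j hj
  unfold hh
  rw [hd]
  have hx : (2 * (j : K) + 1) * (2 * (j : K) + 1)⁻¹ = 1 := mul_inv_cancel₀ h2
  have hy : (2 * ((j : K) + 1)) * (2 * ((j : K) + 1))⁻¹ = 1 := mul_inv_cancel₀ (mul_ne_zero h3 h1)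
  have ht : 2 * (1 / 2 : K) = 1 := mul_one_div_cancel h3
  clear hf
  generalize (2 * (j : K) + 1)⁻¹ = x at *
  generalize (2 * ((j : K) + 1))⁻¹ = y at *
  generalize (1 / 2 : K) = t at *
  linear_combination 6 * (dl K j + x - y) * hc + 6 * y * hc - 3 * (j + 1) ^ 2 * ff K (j + 1) * hy
    + 192 * (j + t) ^ 2 * ff K j * hx + 192 * (j + t) ^ 2 * ff K j * x * ht

omit [CharP K p] in
lemma choose_pred [CharP K p] (k : ℕ) (hk : k < p) : (((p - 1).choose k : ℕ) : K) = (-1) ^ k := by
  induction k with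
  | zero => simp
  | succ k ih =>
    have h1 := Nat.choose_succ_succ (p - 1) k
    have h2 : (p - 1).succ = p := by have := hp.pos; omega
    rw [h2] at h1
    have h3 : ((p.choose (k + 1) : ℕ) : K) = 0 := by
      rw [CharP.cast_eq_zero_iff K p]
      exact hp.dvd_choose_self (by omega) hk
    have h4 := congrArg (Nat.cast (R := K)) h1
    rw [h3] at h4
    push_cast at h4
    rw [ih (by omega)] at h4
    rw [pow_succ]
    linear_combination -h4

lemma cb_n : cb K n = (-1) ^ n := by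
  have := choose_pred (K := K) p n hp hpn n (by omega)
  unfold cb
  rw [Nat.centralBinom_eq_two_mul_choose, ← this]
  congr 2
  omega

lemma pow_natCast (m : ℕ) : (m : K) ^ p = m := by
  have := Fact.mk hp
  have := map_natCast (frobenius K p) m
  rwa [frobenius_def] at this

lemma sixteen_pow : (16 : K) ^ n = 1 := by
  have h3 := two_ne (K := K) p n hp hpn
  have h4 : (4 : K) ≠ 0 := by
    have : (4 : K) = 2 ^ 2 := by norm_num
    rw [this]; exact pow_ne_zero _ h3
  have h1 := pow_natCast (K := K) p n hp hpn 4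
  push_cast at h1
  have h2 : (16 : K) ^ n * 4 = 4 := by
    calc (16 : K) ^ n * 4 = 4 ^ p := by
          rw [hpn, pow_succ, pow_mul]; norm_num
      _ = 4 := h1
  exact mul_right_cancel₀ h4 (by rw [h2, one_mul])

lemma cc_n : cc K n = 1 := by
  unfold cc
  rw [cb_n p n hp hpn, sixteen_pow p n hp hpn, ← pow_mul, mul_comm n 2, pow_mul]
  simp

omit hp hpn [CharP K p] in
lemma cc_zero : cc K 0 = 1 := by simp [cc, cb]

omit hp hpn [CharP K p] in
lemma ff_zero : ff K 0 = 1 := by simp [ff, cb]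

omit hp hpn [CharP K p] in
lemma dl_zero : dl K 0 = 0 := by simp [dl, hk]

omit hp hpn [CharP K p] in
lemma gg_zero : gg K 0 = 0 := by simp [gg, dl_zero]

omit hp hpn [CharP K p] in
lemma hh_zero : hh K 0 = 0 := by simp [hh, dl_zero]

lemma gg_n : gg K n = 4 * dl K n := by
  unfold gg; rw [cc_n p n hp hpn]; ring

lemma hh_n : hh K n * (-1 / 16) ^ n = 6 * dl K n := by
  unfold hh ff
  rw [cb_n p n hp hpn, div_pow, sixteen_pow p n hp hpn]
  have : ((-1 : K) ^ n) ^ 3 * (-1) ^ n = 1 := by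
    rw [← pow_mul, ← pow_add, show n * 3 + n = 2 * (2 * n) by ring, pow_mul]
    simp
  linear_combination 6 * dl K n * this

/-- `δ = ℓ(1)`. -/
lemma dl_n : dl K n = (ell p : K[X]).eval 1 := by
  have h3 := two_ne (K := K) p n hp hpn
  have key : ∀ m, m ≤ n → dl K m = ∑ j ∈ Ico 1 (2 * m + 1), ((-1) ^ (j - 1) * (j : K)⁻¹) := by
    intro m
    induction m with
    | zero => intro _; simp [dl_zero]
    | succ m ih =>
      intro hm
      rw [dl_succ p n hp hpn m (by omega), ih (by omega)]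
      rw [show 2 * (m + 1) + 1 = 2 * m + 1 + 1 + 1 by ring, sum_Ico_succ_top (show 1 ≤ 2 * m + 1 + 1 by omega),
        sum_Ico_succ_top (show 1 ≤ 2 * m + 1 by omega)]
      simp only [Nat.add_sub_cancel]
      rw [pow_succ, pow_mul]
      push_cast
      have : (2 * (m : K) + 1 + 1)⁻¹ = (2 * ((m : K) + 1))⁻¹ := by congr 1; ring
      rw [this]
      simp
      ring
  rw [key n le_rfl, ← hpn]
  unfold ell
  rw [eval_finsetSum]
  refine sum_congr rfl fun j _ => ?_
  simp

end main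

end Pool.Agent.V11294.JO
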