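import Pool.Agent.V11294.JO.Concrete

/-!
# Evaluation at the fixed point
-/

namespace Pool.Agent.V11294.JO

open Finset Polynomial

variable {K : Type*} [Field K]

lemma eval_V (n : ℕ) (k : K) (y : ℕ → K) :
    (S eV n y).eval k = (S eN n y).eval (k ^ 2) := by
  unfold S eV eN
  rw [eval_finsetSum, eval_finsetSum]
  refine sum_congr rfl fun j _ => ?_
  simp [pow_mul]

lemma eval_T (n : ℕ) (w : K) (hw : w ^ 2 - w + 2 = 0) (y : ℕ → K) :
    (S (eT n) n y).eval (w ^ 2) = (1 - w) ^ (2 * n) * (S eN n y).eval (w ^ 4) := by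
  unfold S eT eN
  rw [eval_finsetSum, eval_finsetSum, mul_sum]
  refine sum_congr rfl fun j hj => ?_
  have hj' : j ≤ n := by have := mem_range.1 hj; omega
  obtain ⟨m, rfl⟩ := Nat.exists_eq_add_of_le hj'
  have h1 : (4 : K) * w ^ 2 = w ^ 4 * (1 - w) ^ 2 := by
    linear_combination (-(w ^ 4) + w ^ 3 + 2 * w ^ 2) * hw
  have h2 : (1 + w ^ 2) ^ 2 = (1 - w) ^ 2 := by
    linear_combination (w ^ 2 + w) * hw
  have h3 : j + m - j = m := by omega
  simp only [eval_mul, eval_C, eval_pow, eval_add, eval_one, eval_X, eval_ofNat]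
  rw [h3, h1, pow_mul (1 + w ^ 2), h2, mul_pow, pow_mul (1 - w), pow_add]
  ring

lemma eval_R (n : ℕ) (h16 : (16 : K) ≠ 0) (w : K) (hw : w ^ 2 - w + 2 = 0) (y : ℕ → K) :
    (S eR n y).eval (w ^ 4) = ∑ j ∈ range (n + 1), y j := by
  unfold S eR
  rw [eval_finsetSum]
  refine sum_congr rfl fun j _ => ?_
  have h1 : (1 / 16 : K) * (w ^ 4 * (1 - w ^ 4)) = 1 := by
    have : w ^ 4 * (1 - w ^ 4) = 16 := by
      linear_combination (-w ^ 6 - w ^ 5 + w ^ 4 + 3 * w ^ 3 + 2 * w ^ 2 - 4 * w - 8) * hw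
    rw [this, one_div_mul_cancel h16]
  simp only [eval_mul, eval_C, eval_pow, eval_sub, eval_one, eval_X]
  rw [h1, one_pow, mul_one]

section main

variable (p n : ℕ) [CharP K p] (hp : p.Prime) (hpn : p = 2 * n + 1)
include hp hpn

/-- The inert case. -/
theorem case_inert (w : K) (hw : w ^ 2 - w + 2 = 0) (hwp : w ^ p = 1 - w) (hne : 2 * w - 1 ≠ 0) :
    ∑ j ∈ range (n + 1), hh K j = 0 := by
  have h2 := two_ne (K := K) p n hp hpn
  have h16 := sixteen_ne h2
  have H := two_K (K := K) p n hp hpn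
  have H3 := three_K (K := K) p n hp hpn
  have hodd : p % 2 = 1 := by omega
  have hL := congrArg (eval (w ^ 2)) (landen_c p n hp hpn H)
  rw [eval_T n w hw, eval_V, ← pow_mul, show 2 * 2 = 4 from rfl] at hL
  have hw0 : 1 - w ≠ 0 := by
    intro h
    have : (2 : K) = 0 := by linear_combination hw + w * h
    exact h2 this
  have hpow : (1 - w) ^ (2 * n) * (1 - w) = w := by
    rw [← pow_succ, ← hpn]
    have := Fact.mk hp
    rw [sub_pow_char, one_pow, hwp]; ring
  have hu : (S eN n (cc K)).eval (w ^ 4) = 0 := by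
    have : (2 * w - 1) * (S eN n (cc K)).eval (w ^ 4) = 0 := by
      linear_combination (1 - w) * hL - (S eN n (cc K)).eval (w ^ 4) * hpow
    exact (mul_eq_zero.1 this).resolve_left hne
  have hC := congrArg (eval (w ^ 4)) (clausen_h p n hp hpn H H3 cc_zero ff_zero
    (cc_n p n hp hpn) gg_zero hh_zero)
  simp only [eval_mul, eval_add, eval_sub, eval_pow, eval_one, eval_X, eval_C, hu] at hC
  rw [eval_R n h16 w hw] at hC
  have h3 : (1 - (w ^ 4) ^ p) ≠ 0 := by
    have := Fact.mk hp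
    have h4 : (1 - (w ^ 4) ^ p) = (1 - w ^ 4) ^ p := by
      rw [sub_pow_char, one_pow]
    rw [h4]
    refine pow_ne_zero _ ?_
    have : 1 - w ^ 4 = (1 - w) ^ 4 := by
      linear_combination (-2 * w ^ 2 + 2 * w - 0) * hw
    rw [this]; exact pow_ne_zero _ hw0
  have h5 : (1 - (w ^ 4) ^ p) * ∑ j ∈ range (n + 1), hh K j = 0 := by
    rw [hC]; ring
  exact (mul_eq_zero.1 h5).resolve_left h3

end main

end Pool.Agent.V11294.JO
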