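import Pool.Agent.V11294.JO.Basic

/-!
# The Landen transformation modulo a prime
-/

namespace Pool.Agent.V11294.JO

open Finset Polynomial

variable {K : Type*} [Field K]

/-- The family `X^{2j}`. -/
noncomputable def eV (j : ℕ) : K[X] := X ^ (2 * j)

/-- The family `(4X)^j (1+X)^{2(n-j)}`. -/
noncomputable def eT (n : ℕ) (j : ℕ) : K[X] := (4 * X) ^ j * (1 + X) ^ (2 * (n - j))

/-- The family `X^j`. -/
noncomputable def eN (j : ℕ) : K[X] := X ^ j

lemma D_4X_pow (j : ℕ) : D ((4 * X : K[X]) ^ j) = (j : K[X]) * (4 * X) ^ j := by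
  rcases j with _ | j
  · simp [D_one]
  · rw [D_pow, D_mul, D_ofNat, D_X]
    simp only [Nat.add_sub_cancel]
    ring

lemma D_1X_pow (m : ℕ) : (1 + X) * D ((1 + X : K[X]) ^ m) = (m : K[X]) * X * (1 + X) ^ m := by
  rcases m with _ | m
  · simp [D_one]
  · rw [D_pow, D_add, D_one, D_X]
    simp only [Nat.add_sub_cancel]
    ring

lemma eT_D (n j : ℕ) (hj : j ≤ n) :
    (1 + X) * D (eT n j : K[X]) = (j : K[X]) * (1 - X) * eT n j + (2 * (n : K[X]) * X) * eT n j := by
  unfold eT
  rw [D_mul, D_4X_pow]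
  have := D_1X_pow (K := K) (2 * (n - j))
  have h1 : ((2 * (n - j) : ℕ) : K[X]) = 2 * (n : K[X]) - 2 * (j : K[X]) := by
    push_cast [Nat.cast_sub hj]; ring
  rw [h1] at this
  linear_combination (4 * X) ^ j * this

lemma eT_shift (n j : ℕ) (hj : j < n) :
    (1 + X) ^ 2 * eT n (j + 1) = (4 * X) * (eT n j : K[X]) := by
  unfold eT
  obtain ⟨m, rfl⟩ := Nat.exists_eq_add_of_lt hj
  have h1 : j + m + 1 - (j + 1) = m := by omega
  have h2 : j + m + 1 - j = m + 1 := by omega
  rw [h1, h2]
  ring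

lemma eV_D (j : ℕ) : 1 * D (eV j : K[X]) = (j : K[X]) * 2 * eV j + 0 * eV j := by
  unfold eV
  rw [D_X_pow]; push_cast; ring

lemma eV_shift (j : ℕ) : 1 * (eV (j + 1) : K[X]) = X ^ 2 * eV j := by
  unfold eV; ring

/-- The operator `M`. -/
noncomputable def M (y : K[X]) : K[X] := D (D y) - X ^ 2 * (D (D y) + 2 * D y + y)

lemma M_sub (a b : K[X]) : M (a - b) = M a - M b := by
  simp only [M, D_sub]; ring

lemma M_const_mul (a b : K[X]) (ha : D a = 0) : M (a * b) = a * M b := by
  simp only [M, D_mul, ha, zero_mul, zero_add]; ring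

lemma M_mul (a b : K[X]) : M (a * b) = M a * b + (1 - X ^ 2) * (2 * D a * D b + a * D (D b))
    - 2 * X ^ 2 * a * D b := by
  simp only [M, D_mul, D_add]; ring

lemma M_T (n : ℕ) (hn : 2 * (n : K[X]) = -1) (y : ℕ → K) :
    (1 + X) * M (S (eT n) n y) = (1 - X) * ((1 + X) ^ 2 * S (eT n) n (th (th y))
      - X * (4 * S (eT n) n (th (th y)) + 4 * S (eT n) n (th y) + S (eT n) n y)) := by
  have e1 := S_D (eT n) n (1 + X) (1 - X) (2 * (n : K[X]) * X) (fun j hj => eT_D n j hj) y
  have e2 := S_D (eT n) n (1 + X) (1 - X) (2 * (n : K[X]) * X) (fun j hj => eT_D n j hj) (th y)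
  rw [hn] at e1 e2
  have e4 := congrArg D e1
  simp only [D_mul, D_add, D_sub, D_one, D_X] at e4
  have h1 : D (-1 : K[X]) = 0 := by
    have : (-1 : K[X]) = 0 - 1 := by ring
    rw [this, D_sub, D_zero, D_one, sub_zero]
  rw [h1] at e4
  unfold M
  linear_combination (1 - X ^ 2) * e4 + (1 - X) ^ 2 * e2 - 2 * X * e1

lemma M_V (n : ℕ) (y : ℕ → K) :
    M (S eV n y) = 4 * S eV n (th (th y)) - X ^ 2 * (4 * S eV n (th (th y)) +
      4 * S eV n (th y) + S eV n y) := by
  have e1 := S_D eV n 1 2 0 (fun j _ => eV_D j) y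
  have e2 := S_D eV n 1 2 0 (fun j _ => eV_D j) (th y)
  have e4 := congrArg D e1
  simp only [zero_mul, one_mul, add_zero] at e4 e1 e2
  rw [D_mul, D_two, zero_mul, zero_add] at e4
  unfold M
  rw [e4, e1, e2]
  ring

lemma coeff_M (y : K[X]) (m : ℕ) :
    (M y).coeff (m + 2) = ((m : K) + 2) ^ 2 * y.coeff (m + 2) - ((m : K) + 1) ^ 2 * y.coeff m := by
  unfold M
  rw [coeff_sub, coeff_D, coeff_D, show m + 2 = m + 2 from rfl, coeff_X_pow_mul, coeff_add,
    coeff_add, coeff_D, coeff_D]
  have : (2 * D y).coeff m = 2 * (D y).coeff m := by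
    rw [← map_ofNat C 2, coeff_C_mul]
  rw [this, coeff_D]
  push_cast
  ring

lemma coeff_M_one (y : K[X]) : (M y).coeff 1 = y.coeff 1 := by
  unfold M
  rw [coeff_sub, coeff_D, coeff_D, coeff_X_pow_mul']
  simp

lemma natCast_ne_zero_of (p : ℕ) [CharP K p] (hp : p.Prime) (m : ℕ) (h1 : 0 < m) (h2 : m < 2 * p)
    (h3 : m ≠ p) : (m : K) ≠ 0 := by
  rw [Ne, CharP.cast_eq_zero_iff K p]
  rintro ⟨t, rfl⟩
  have : t = 0 ∨ t = 1 ∨ 2 ≤ t := by omega
  rcases this with rfl | rfl | h
  · omega
  · omega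
  · nlinarith [hp.pos]

lemma M_uniq (p : ℕ) [CharP K p] (hp : p.Prime) (Z : K[X]) (hZ : M Z = 0)
    (h0 : Z.coeff 0 = 0) (hpp : Z.coeff p = 0) (hd : Z.natDegree < 2 * p) : Z = 0 := by
  have key : ∀ m, m < 2 * p → Z.coeff m = 0 := by
    intro m
    induction m using Nat.strong_induction_on with
    | _ m ih =>
      intro hm
      rcases m with _ | _ | m
      · exact h0
      · have := coeff_M_one Z
        rw [hZ, coeff_zero] at this
        exact this.symm
      · by_cases hmp : m + 2 = p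
        · rw [show m + 1 + 1 = m + 2 from rfl, hmp]; exact hpp
        · have h1 := coeff_M Z m
          rw [hZ, coeff_zero, ih m (by omega) (by omega), mul_zero, sub_zero] at h1
          have h2 : ((m + 2 : ℕ) : K) ≠ 0 := natCast_ne_zero_of p hp _ (by omega) hm hmp
          push_cast at h2
          have := (mul_eq_zero.1 h1.symm).resolve_left (pow_ne_zero 2 h2)
          exact this
  ext m
  by_cases hm : m < 2 * p
  · rw [key m hm, coeff_zero]
  · rw [coeff_eq_zero_of_natDegree_lt (by omega), coeff_zero]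

/-- The truncated logarithm. -/
noncomputable def ell (p : ℕ) : K[X] :=
  ∑ j ∈ Ico 1 p, C ((-1) ^ (j - 1) * (j : K)⁻¹) * X ^ j

lemma D_ell (p : ℕ) [CharP K p] (hp : p.Prime) (hp2 : p ≠ 2) :
    (1 + X) * D (ell p : K[X]) = X - X ^ p := by
  have h1 : D (ell p : K[X]) = ∑ j ∈ Ico 1 p, (-1) ^ (j - 1) * X ^ j := by
    unfold ell
    rw [D_sum]
    refine sum_congr rfl fun j hj => ?_
    have hj' := Finset.mem_Ico.1 hj
    have hj0 : (j : K) ≠ 0 := natCast_ne_zero_of p hp j (by omega) (by omega) (by omega)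
    rw [D_mul, D_C, D_X_pow, zero_mul, zero_add]
    have : (j : K[X]) = C (j : K) := (C_eq_natCast j).symm
    rw [this, ← mul_assoc, ← C_mul, mul_assoc, inv_mul_cancel₀ hj0, mul_one]
    simp
  rw [h1, sum_Ico_eq_sum_range]
  have h2 : ∀ m : ℕ, (1 + X : K[X]) * ∑ k ∈ range m, (-1) ^ (1 + k - 1) * X ^ (1 + k) =
      X - (-1) ^ m * X ^ (m + 1) := by
    intro m
    induction m with
    | zero => simp
    | succ m ih =>
      rw [sum_range_succ, mul_add, ih, show 1 + m - 1 = m by omega]
      ring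
  rw [h2]
  have hodd : Even (p - 1) := by
    rcases hp.even_sub_one hp2 with ⟨a, ha⟩; exact ⟨a, ha⟩
  rw [hodd.neg_one_pow, show p - 1 + 1 = p by have := hp.pos; omega, one_mul]

lemma D_D_ell (p : ℕ) [CharP K p] (hp : p.Prime) (hp2 : p ≠ 2) :
    (1 + X) ^ 2 * D (D (ell p : K[X])) = X * (1 + X ^ p) := by
  have e1 := D_ell (K := K) p hp hp2
  have e2 := congrArg D e1
  rw [D_mul, D_add, D_one, D_X, D_sub, D_X, D_X_pow_char (K := K) p] at e2
  linear_combination (1 + X) * e2 - X * e1

lemma natDegree_S_le (e : ℕ → K[X]) (n d : ℕ) (y : ℕ → K) (h : ∀ j, j ≤ n → (e j).natDegree ≤ d) :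
    (S e n y).natDegree ≤ d := by
  unfold S
  refine natDegree_sum_le_of_forall_le _ _ fun j hj => ?_
  refine (natDegree_C_mul_le _ _).trans (h j (by have := mem_range.1 hj; omega))

lemma natDegree_eT_le (n j : ℕ) (hj : j ≤ n) : (eT n j : K[X]).natDegree ≤ 2 * n := by
  unfold eT
  refine natDegree_mul_le.trans ?_
  have h1 : ((4 * X : K[X]) ^ j).natDegree ≤ j := by
    refine natDegree_pow_le.trans ?_
    have : (4 * X : K[X]).natDegree ≤ 1 := by
      rw [← map_ofNat C 4]; exact (natDegree_C_mul_le _ _).trans natDegree_X_le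
    nlinarith
  have h2 : ((1 + X : K[X]) ^ (2 * (n - j))).natDegree ≤ 2 * (n - j) := by
    refine natDegree_pow_le.trans ?_
    have : (1 + X : K[X]).natDegree ≤ 1 := by
      refine (natDegree_add_le _ _).trans ?_
      simp
    nlinarith
  omega

lemma natDegree_eV_le (n j : ℕ) (hj : j ≤ n) : (eV j : K[X]).natDegree ≤ 2 * n := by
  unfold eV
  rw [natDegree_X_pow]; omega

lemma coeff_zero_T (n : ℕ) (y : ℕ → K) : (S (eT n) n y).coeff 0 = y 0 := by
  unfold S
  rw [finsetSum_coeff, sum_range_succ']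
  simp [eT, mul_pow, coeff_zero_eq_eval_zero, eval_pow]

lemma coeff_zero_V (n : ℕ) (y : ℕ → K) : (S eV n y).coeff 0 = y 0 := by
  unfold S
  rw [finsetSum_coeff, sum_range_succ']
  simp [eV, coeff_zero_eq_eval_zero, eval_pow]

lemma coeff_top_T (n : ℕ) (y : ℕ → K) : (S (eT n) n y).coeff (2 * n) = y 0 := by
  unfold S
  rw [finsetSum_coeff, sum_range_succ']
  rw [sum_eq_zero, zero_add, coeff_C_mul]
  · have h1 : (eT n 0 : K[X]) = (1 + X) ^ (2 * n) := by simp [eT]
    rw [h1, coeff_one_add_X_pow]; simp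
  · intro j hj
    have hj' := mem_range.1 hj
    rw [coeff_C_mul]
    have h1 : (eT n (j + 1) : K[X]).natDegree < 2 * n := by
      unfold eT
      refine lt_of_le_of_lt natDegree_mul_le ?_
      have h1 : ((4 * X : K[X]) ^ (j + 1)).natDegree ≤ j + 1 := by
        refine natDegree_pow_le.trans ?_
        have : (4 * X : K[X]).natDegree ≤ 1 := by
          rw [← map_ofNat C 4]; exact (natDegree_C_mul_le _ _).trans natDegree_X_le
        nlinarith
      have h2 : ((1 + X : K[X]) ^ (2 * (n - (j + 1)))).natDegree ≤ 2 * (n - (j + 1)) := by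
        refine natDegree_pow_le.trans ?_
        have : (1 + X : K[X]).natDegree ≤ 1 := by
          refine (natDegree_add_le _ _).trans ?_
          simp
        nlinarith
      omega
    rw [coeff_eq_zero_of_natDegree_lt h1, mul_zero]

lemma coeff_top_V (n : ℕ) (y : ℕ → K) : (S eV n y).coeff (2 * n) = y n := by
  unfold S
  rw [finsetSum_coeff, sum_range_succ]
  rw [sum_eq_zero, zero_add, coeff_C_mul]
  · simp [eV]
  · intro j hj
    have hj' := mem_range.1 hj
    rw [coeff_C_mul, eV, coeff_X_pow, if_neg (by omega), mul_zero]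

section main

variable (p n : ℕ) [CharP K p] (hp : p.Prime) (hpn : p = 2 * n + 1)
include hp hpn

lemma two_ne : (2 : K) ≠ 0 := by
  have : ((2 : ℕ) : K) ≠ 0 := by
    rw [Ne, CharP.cast_eq_zero_iff K p]
    intro h
    have := (Nat.prime_dvd_prime_iff_eq hp Nat.prime_two).1 h
    omega
  exact_mod_cast this

lemma two_n_eq : 2 * (n : K) = -1 := by
  have : ((2 * n + 1 : ℕ) : K) = 0 := by rw [← hpn, CharP.cast_eq_zero]
  push_cast at this
  linear_combination this

lemma two_n_eq' : 2 * (n : K[X]) = -1 := by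
  have := congrArg C (two_n_eq (K := K) p n hp hpn)
  rw [C_mul, map_ofNat, C_eq_natCast, C_neg, C_1] at this
  exact this

lemma n_half : (n : K) + 1 / 2 = 0 := by
  have h2 := two_ne (K := K) p n hp hpn
  have := two_n_eq (K := K) p n hp hpn
  field_simp
  linear_combination this

lemma one_add_X_ne : (1 + X : K[X]) ≠ 0 := by
  intro h
  have := congrArg (fun q => coeff q 0) h
  simp at this

omit hp hpn in
lemma four_ne' (h2 : (2 : K) ≠ 0) : (4 : K[X]) ≠ 0 := by
  rw [← map_ofNat C 4, Ne, C_eq_zero]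
  have : (4 : K) = 2 * 2 := by norm_num
  rw [this]; exact mul_ne_zero h2 h2

/-- The Landen transformation, polynomial form modulo `p`. -/
theorem landen_c {c g : ℕ → K} (H : Two n c g) : S (eT n) n c = S eV n c := by
  have h2 := two_ne (K := K) p n hp hpn
  have hT := eq_c (eT n) n ((1 + X) ^ 2) (4 * X) (fun j hj => eT_shift n j hj) h2
    (n_half p n hp hpn) H
  have hV := eq_c eV n 1 (X ^ 2) (fun j _ => eV_shift j) h2
    (n_half p n hp hpn) H
  have m1 := M_T n (two_n_eq' p n hp hpn) c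
  have m2 := M_V n c
  have h1X := one_add_X_ne (K := K) p n hp hpn
  have h4 := four_ne' h2
  have hM1 : M (S (eT n) n c) = 0 := by
    apply mul_left_cancel₀ (mul_ne_zero h4 h1X)
    linear_combination 4 * m1 + (1 - X) * hT
  have hM2 : M (S eV n c) = 0 := by
    linear_combination m2 + hV
  have := M_uniq p hp (S (eT n) n c - S eV n c) (by rw [M_sub, hM1, hM2, sub_zero])
    (by rw [coeff_sub, coeff_zero_T, coeff_zero_V, sub_self])
    (by
      refine coeff_eq_zero_of_natDegree_lt ?_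
      refine lt_of_le_of_lt ((natDegree_sub_le_iff_left (n := 2 * n)
        (natDegree_S_le _ _ _ _ (natDegree_eV_le n))).2 (natDegree_S_le _ _ _ _ (natDegree_eT_le n))) ?_
      omega)
    (by
      refine lt_of_le_of_lt ((natDegree_sub_le_iff_left (n := 2 * n)
        (natDegree_S_le _ _ _ _ (natDegree_eV_le n))).2 (natDegree_S_le _ _ _ _ (natDegree_eT_le n))) ?_
      omega)
  exact sub_eq_zero.1 this

omit hpn in
lemma natDegree_ell_le : (ell p : K[X]).natDegree ≤ p - 1 := by
  unfold ell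
  refine natDegree_sum_le_of_forall_le _ _ fun j hj => ?_
  refine (natDegree_C_mul_X_pow_le _ _).trans ?_
  have := Finset.mem_Ico.1 hj
  omega

omit hp hpn [CharP K p] in
lemma coeff_zero_ell : (ell p : K[X]).coeff 0 = 0 := by
  unfold ell
  rw [finsetSum_coeff]
  refine sum_eq_zero fun j hj => ?_
  have := Finset.mem_Ico.1 hj
  rw [coeff_C_mul_X_pow, if_neg (by omega)]

/-- The derivative form of the Landen transformation modulo `p`. -/
theorem landen_g {c g : ℕ → K} (H : Two n c g) (hc0 : c 0 = 1) (hcn : c n = 1) (hg0 : g 0 = 0) :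
    2 * (1 + X ^ p) * S (eT n) n g = (1 - X ^ p) * S eV n g + 4 * (S eV n c * ell p)
      + C (g n) * (X ^ p * S eV n c) := by
  have h2 := two_ne (K := K) p n hp hpn
  have hp2 : p ≠ 2 := by omega
  have hTg := eq_g (eT n) n ((1 + X) ^ 2) (4 * X) (fun j hj => eT_shift n j hj) h2
    (n_half p n hp hpn) H
  have hVg := eq_g eV n 1 (X ^ 2) (fun j _ => eV_shift j) h2
    (n_half p n hp hpn) H
  have hVc := eq_c eV n 1 (X ^ 2) (fun j _ => eV_shift j) h2
    (n_half p n hp hpn) H
  have m1 := M_T n (two_n_eq' p n hp hpn) g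
  have m2 := M_V n g
  have m3 := M_V n c
  have h1X := one_add_X_ne (K := K) p n hp hpn
  have h4 := four_ne' h2
  have hland := landen_c p n hp hpn H
  have dT := S_D (eT n) n (1 + X) (1 - X) (2 * (n : K[X]) * X) (fun j hj => eT_D n j hj) c
  rw [two_n_eq' p n hp hpn, hland] at dT
  have dV := S_D eV n 1 2 0 (fun j _ => eV_D j) c
  have hq : D ((X : K[X]) ^ p) = 0 := D_X_pow_char p
  have l1 := D_ell (K := K) p hp hp2
  have l2 := D_D_ell (K := K) p hp hp2
  have hMc : M (S eV n c) = 0 := by linear_combination m3 + hVc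
  have hMT : M (S (eT n) n g) = 2 * X * (1 - X) * S eV n c - 2 * (1 - X) ^ 2 * D (S eV n c) := by
    apply mul_left_cancel₀ (mul_ne_zero h4 h1X)
    rw [hland] at hTg
    linear_combination 4 * m1 + (1 - X) * hTg + 8 * (1 - X) ^ 2 * dT
  have hMV : M (S eV n g) = -4 * (1 - X ^ 2) * D (S eV n c) + 4 * X ^ 2 * S eV n c := by
    linear_combination m2 + hVg + 4 * (1 - X ^ 2) * dV
  have hMl := M_mul (S eV n c) (ell p : K[X])
  rw [hMc] at hMl
  set v0 : K[X] := S eV n c with hv0
  set Z : K[X] := 2 * (1 + X ^ p) * S (eT n) n g - (1 - X ^ p) * S eV n g - 4 * (v0 * ell p)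
    with hZdef
  have hMZ : M Z = 0 := by
    have d1 : D (2 * (1 + X ^ p) : K[X]) = 0 := by
      rw [D_mul, D_two, D_add, D_one, hq]; ring
    have d2 : D ((1 - X ^ p) : K[X]) = 0 := by
      rw [D_sub, D_one, hq]; ring
    have d3 : D (4 : K[X]) = 0 := D_ofNat 4
    rw [hZdef, M_sub, M_sub, M_const_mul _ _ d1, M_const_mul _ _ d2, M_const_mul _ _ d3, hMT, hMV,
      hMl]
    have h5 : (1 + X : K[X]) ^ 2 ≠ 0 := pow_ne_zero _ h1X
    apply mul_left_cancel₀ h5
    linear_combination (-8 * (1 + X) * (1 - X ^ 2) * D v0 + 8 * X ^ 2 * v0 * (1 + X)) * l1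
      - 4 * (1 - X ^ 2) * v0 * l2
  have hdT : (S (eT n) n g).natDegree ≤ 2 * n := natDegree_S_le _ _ _ _ (natDegree_eT_le n)
  have hdV : (S eV n g).natDegree ≤ 2 * n := natDegree_S_le _ _ _ _ (natDegree_eV_le n)
  have hdc : v0.natDegree ≤ 2 * n := natDegree_S_le _ _ _ _ (natDegree_eV_le n)
  have hdl : (ell p : K[X]).natDegree ≤ 2 * n := by
    refine (natDegree_ell_le (K := K) p hp).trans (by omega)
  have hdXp : ((X : K[X]) ^ p).natDegree ≤ p := natDegree_X_pow_le p
  have hd1 : (1 + X ^ p : K[X]).natDegree ≤ p := by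
    refine (natDegree_add_le _ _).trans ?_
    simp
  have hd2 : (1 - X ^ p : K[X]).natDegree ≤ p := by
    refine (natDegree_sub_le _ _).trans ?_
    simp
  have hdZ : Z.natDegree < 2 * p := by
    have a1 : (2 * (1 + X ^ p) * S (eT n) n g).natDegree ≤ 2 * n + p := by
      refine natDegree_mul_le.trans ?_
      have : (2 * (1 + X ^ p) : K[X]).natDegree ≤ p := by
        rw [← map_ofNat C 2]
        exact (natDegree_C_mul_le _ _).trans hd1
      omega
    have a2 : ((1 - X ^ p) * S eV n g).natDegree ≤ 2 * n + p := by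
      refine natDegree_mul_le.trans ?_
      omega
    have a3 : (4 * (v0 * ell p)).natDegree ≤ 2 * n + p := by
      rw [← map_ofNat C 4]
      refine (natDegree_C_mul_le _ _).trans (natDegree_mul_le.trans ?_)
      omega
    have a4 := natDegree_sub_le_of_le (natDegree_sub_le_of_le a1 a2) a3
    rw [← hZdef] at a4
    simp only [max_self] at a4
    omega
  have hZ0 : Z.coeff 0 = 0 := by
    rw [hZdef, coeff_sub, coeff_sub, mul_coeff_zero, mul_coeff_zero, mul_coeff_zero,
      coeff_zero_T, coeff_zero_V, hg0, mul_coeff_zero, mul_coeff_zero, coeff_zero_ell]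
    ring
  have hv00 : v0.coeff 0 = 1 := by rw [hv0, coeff_zero_V, hc0]
  -- determine the constant
  have hZ : Z = C (Z.coeff p) * (X ^ p * v0) := by
    have d1 : D (C (Z.coeff p) : K[X]) = 0 := D_C _
    have hMX : M (C (Z.coeff p) * (X ^ p * v0)) = 0 := by
      rw [M_const_mul _ _ d1, M_const_mul _ _ hq, hMc]; ring
    have := M_uniq p hp (Z - C (Z.coeff p) * (X ^ p * v0)) (by rw [M_sub, hMZ, hMX, sub_zero])
      (by
        rw [coeff_sub, hZ0, coeff_C_mul, mul_coeff_zero, coeff_X_pow, if_neg hp.pos.ne]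
        ring)
      (by
        rw [coeff_sub, coeff_C_mul]
        have := coeff_X_pow_mul v0 p 0
        rw [zero_add] at this
        rw [this, hv00]; ring)
      (by
        have a5 : (C (Z.coeff p) * (X ^ p * v0)).natDegree ≤ 2 * p - 1 := by
          refine (natDegree_C_mul_le _ _).trans (natDegree_mul_le.trans ?_)
          omega
        have a6 : Z.natDegree ≤ 2 * p - 1 := by omega
        have a7 := natDegree_sub_le_of_le a6 a5
        simp only [max_self] at a7
        have := hp.pos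
        omega)
    exact sub_eq_zero.1 this
  have htop : Z.coeff (2 * n + p) = g n := by
    rw [hZdef]
    have b1 : (2 * (1 + X ^ p) * S (eT n) n g).coeff (2 * n + p) = 0 := by
      rw [mul_assoc, ← map_ofNat C 2, coeff_C_mul, add_mul, one_mul, coeff_add, coeff_X_pow_mul,
        coeff_top_T, hg0, coeff_eq_zero_of_natDegree_lt (by have := hp.pos; omega)]
      ring
    have b2 : ((1 - X ^ p) * S eV n g).coeff (2 * n + p) = - g n := by
      rw [sub_mul, one_mul, coeff_sub, coeff_X_pow_mul,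
        coeff_top_V, coeff_eq_zero_of_natDegree_lt (by have := hp.pos; omega)]
      ring
    have b3 : (4 * (v0 * ell p)).coeff (2 * n + p) = 0 := by
      refine coeff_eq_zero_of_natDegree_lt ?_
      rw [← map_ofNat C 4]
      refine lt_of_le_of_lt (natDegree_C_mul_le _ _) (lt_of_le_of_lt natDegree_mul_le ?_)
      omega
    rw [coeff_sub, coeff_sub, b1, b2, b3]; ring
  have hκ : Z.coeff p = g n := by
    have := congrArg (fun q => coeff q (2 * n + p)) hZ
    simp only [coeff_C_mul, coeff_X_pow_mul] at this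
    rw [htop, hv0, coeff_top_V, hcn, mul_one] at this
    exact this.symm
  rw [hκ] at hZ
  linear_combination hZ

end main

end Pool.Agent.V11294.JO
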