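import Pool.Agent.V11294.JO.Eval

/-!
# The split case
-/

namespace Pool.Agent.V11294.JO

open Finset Polynomial

/-- The integral version of `ell`. -/
def ellZ (p : ℕ) (x : ℤ) : ℤ := ∑ j ∈ Ico 1 p, ((p.choose j / p : ℕ) : ℤ) * x ^ j

lemma ellZ_eq (p : ℕ) (hp : p.Prime) (x : ℤ) :
    (p : ℤ) * ellZ p x = (1 + x) ^ p - 1 - x ^ p := by
  have h1 : (1 + x) ^ p = 1 + ∑ j ∈ Ico 1 p, ((p.choose j : ℕ) : ℤ) * x ^ j + x ^ p := by
    rw [add_comm 1 x, add_pow, sum_range_succ, range_eq_Ico, sum_eq_sum_Ico_succ_bot hp.pos]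
    simp only [one_pow, mul_one, pow_zero, Nat.choose_zero_right, Nat.cast_one, Nat.choose_self,
      zero_add]
    congr 2
    exact sum_congr rfl fun j _ => by ring
  rw [h1]
  unfold ellZ
  rw [mul_sum]
  have : ∑ j ∈ Ico 1 p, (p : ℤ) * (((p.choose j / p : ℕ) : ℤ) * x ^ j) =
      ∑ j ∈ Ico 1 p, ((p.choose j : ℕ) : ℤ) * x ^ j := by
    refine sum_congr rfl fun j hj => ?_
    have hj' := Finset.mem_Ico.1 hj
    have hd : p ∣ p.choose j := hp.dvd_choose_self (by omega) hj'.2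
    obtain ⟨q, hq⟩ := hd
    rw [hq, Nat.mul_div_cancel_left _ hp.pos]
    push_cast; ring
  rw [this]; ring

variable {K : Type*} [Field K]

lemma ellZ_cast (p n : ℕ) [CharP K p] (hp : p.Prime) (hpn : p = 2 * n + 1) (x : ℤ) :
    ((ellZ p x : ℤ) : K) = (ell p : K[X]).eval (x : K) := by
  unfold ellZ ell
  rw [eval_finsetSum, Int.cast_sum]
  refine sum_congr rfl fun j hj => ?_
  have hj' := Finset.mem_Ico.1 hj
  have hd : p ∣ p.choose j := hp.dvd_choose_self (by omega) hj'.2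
  obtain ⟨q, hq⟩ := hd
  rw [hq, Nat.mul_div_cancel_left _ hp.pos]
  obtain ⟨i, rfl⟩ : ∃ i, j = i + 1 := ⟨j - 1, by omega⟩
  have h1 := Nat.add_one_mul_choose_eq (p - 1) i
  rw [show p - 1 + 1 = p by omega, hq] at h1
  have h2 : (p - 1).choose i = q * (i + 1) := by
    apply Nat.eq_of_mul_eq_mul_left hp.pos
    rw [h1]; ring
  have h3 := choose_pred (K := K) p n hp hpn i (by omega)
  rw [h2] at h3
  push_cast at h3
  have hj0 : ((i : K) + 1) ≠ 0 := by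
    have := natCast_ne_zero_of (K := K) p hp (i + 1) (by omega) (by omega) (by omega)
    push_cast at this; exact this
  simp only [eval_mul, eval_C, eval_pow, eval_X, Nat.add_sub_cancel]
  rw [← h3]
  push_cast
  field_simp

lemma ellE_eval (p : ℕ) (x : K) : (ellE p : K[X]).eval x = (ell p : K[X]).eval (-x) := by
  unfold ellE ell
  rw [eval_finsetSum, eval_finsetSum]
  refine sum_congr rfl fun j hj => ?_
  have hj' := Finset.mem_Ico.1 hj
  obtain ⟨i, rfl⟩ : ∃ i, j = i + 1 := ⟨j - 1, by omega⟩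
  simp only [eval_mul, eval_C, eval_pow, eval_X, Nat.add_sub_cancel]
  rw [neg_pow x, pow_succ (-1 : K)]
  have : (-1 : K) ^ i * (-1) ^ i = 1 := by rw [← mul_pow]; simp
  linear_combination ((((i + 1 : ℕ) : K)⁻¹ * x ^ (i + 1))) * this

/-- Hensel lift. -/
lemma exists_lift (p : ℕ) (hp : p.Prime) (w : ZMod p) (hw : w ^ 2 - w + 2 = 0)
    (hne : 2 * w - 1 ≠ 0) : ∃ W : ℤ, (W : ZMod p) = w ∧ (p : ℤ) ^ 2 ∣ W ^ 2 - W + 2 := by
  have := Fact.mk hp
  obtain ⟨w0, hw0⟩ := ZMod.intCast_surjective w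
  have h1 : (p : ℤ) ∣ w0 ^ 2 - w0 + 2 := by
    rw [← ZMod.intCast_zmod_eq_zero_iff_dvd]
    push_cast
    rw [hw0, hw]
  obtain ⟨a, ha⟩ := h1
  obtain ⟨t, ht⟩ := ZMod.intCast_surjective (-(a : ZMod p) * (2 * w - 1)⁻¹)
  have h2 : (p : ℤ) ∣ a + t * (2 * w0 - 1) := by
    rw [← ZMod.intCast_zmod_eq_zero_iff_dvd]
    push_cast
    rw [hw0, ht, mul_assoc, inv_mul_cancel₀ hne]; ring
  obtain ⟨b, hb⟩ := h2
  refine ⟨w0 + p * t, ?_, ?_⟩
  · push_cast; rw [hw0]; simp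
  · refine ⟨b + t ^ 2, ?_⟩
    linear_combination ha + (p : ℤ) * hb

/-- Fermat. -/
lemma fermat (p : ℕ) (hp : p.Prime) (x : ℤ) : ∃ r : ℤ, x ^ p = x + p * r := by
  have := Fact.mk hp
  have h : (p : ℤ) ∣ x ^ p - x := by
    rw [← ZMod.intCast_zmod_eq_zero_iff_dvd]
    push_cast
    rw [ZMod.pow_card, sub_self]
  obtain ⟨r, hr⟩ := h
  exact ⟨r, by linear_combination hr⟩

lemma pow_congr (p : ℕ) (x y m : ℤ) (N : ℕ) (h : m ∣ x - y) : m ∣ x ^ N - y ^ N :=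
  h.trans (sub_dvd_pow_sub_pow x y N)

lemma split_values (p : ℕ) (hp : p.Prime) (hp2 : Odd p) (W : ℤ) (hW : (p : ℤ) ^ 2 ∣ W ^ 2 - W + 2) :
    ∃ r s : ℤ, (p : ℤ) ∣ ellZ p (W ^ 2) + (s + 2 * W * r) ∧
      (p : ℤ) ∣ ellZ p 1 - (W * s + (1 - W) * r) ∧
      (p : ℤ) ∣ ellZ p (-(W ^ 4)) - 4 * ((1 - W) ^ 3 * s + W ^ 3 * r) := by
  obtain ⟨r, hr⟩ := fermat p hp W
  obtain ⟨s, hs⟩ := fermat p hp (1 - W)
  have hp0 : (p : ℤ) ≠ 0 := by exact_mod_cast hp.ne_zero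
  refine ⟨r, s, ?_, ?_, ?_⟩
  · have h1 := ellZ_eq p hp (W ^ 2)
    have h2 : (p : ℤ) ^ 2 ∣ (1 + W ^ 2) ^ p - (-(1 - W)) ^ p :=
      pow_congr p _ _ _ _ (by
        have : 1 + W ^ 2 - -(1 - W) = W ^ 2 - W + 2 := by ring
        rw [this]; exact hW)
    rw [hp2.neg_pow, hs] at h2
    have h3 : (W ^ 2) ^ p = (W + p * r) ^ 2 := by rw [← hr]; ring
    rw [h3] at h1
    have h4 : (p : ℤ) * p ∣ p * (ellZ p (W ^ 2) + (s + 2 * W * r)) := by
      have : (p : ℤ) * (ellZ p (W ^ 2) + (s + 2 * W * r)) =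
          ((1 + W ^ 2) ^ p - -(1 - W + p * s)) - (W ^ 2 - W + 2) - (p : ℤ) ^ 2 * r ^ 2 := by
        linear_combination h1
      rw [this, ← pow_two]
      exact dvd_sub (dvd_sub h2 hW) (dvd_mul_right _ _)
    exact (mul_dvd_mul_iff_left hp0).1 h4
  · have h1 := ellZ_eq p hp 1
    have h2 : (p : ℤ) ^ 2 ∣ (1 + 1) ^ p - (W * (1 - W)) ^ p :=
      pow_congr p _ _ _ _ (by
        have : 1 + 1 - W * (1 - W) = W ^ 2 - W + 2 := by ring
        rw [this]; exact hW)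
    rw [mul_pow, hr, hs] at h2
    rw [one_pow] at h1
    have h4 : (p : ℤ) * p ∣ p * (ellZ p 1 - (W * s + (1 - W) * r)) := by
      have : (p : ℤ) * (ellZ p 1 - (W * s + (1 - W) * r)) =
          ((1 + 1) ^ p - (W + p * r) * (1 - W + p * s)) - (W ^ 2 - W + 2) + (p : ℤ) ^ 2 * (r * s) := by
        linear_combination h1
      rw [this, ← pow_two]
      exact dvd_add (dvd_sub h2 hW) (dvd_mul_right _ _)
    exact (mul_dvd_mul_iff_left hp0).1 h4
  · have h1 := ellZ_eq p hp (-(W ^ 4))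
    have h2 : (p : ℤ) ^ 2 ∣ (1 + -(W ^ 4)) ^ p - ((1 - W) ^ 4) ^ p :=
      pow_congr p _ _ _ _ (by
        have : 1 + -(W ^ 4) - (1 - W) ^ 4 = (W ^ 2 - W + 2) * (-2 * W ^ 2 + 2 * W) := by ring
        rw [this]; exact hW.mul_right _)
    have h5 : ((1 - W) ^ 4) ^ p = (1 - W + p * s) ^ 4 := by
      rw [← hs, ← pow_mul, ← pow_mul, mul_comm]
    rw [h5] at h2
    have h3 : (-(W ^ 4)) ^ p = -(W + p * r) ^ 4 := by
      rw [hp2.neg_pow, ← hr]; ring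
    rw [h3] at h1
    have h6 : (p : ℤ) ^ 2 ∣ (1 - W) ^ 4 + W ^ 4 - 1 := by
      have : (1 - W) ^ 4 + W ^ 4 - 1 = (W ^ 2 - W + 2) * (2 * W ^ 2 - 2 * W) := by ring
      rw [this]; exact hW.mul_right _
    have h4 : (p : ℤ) * p ∣ p * (ellZ p (-(W ^ 4)) - 4 * ((1 - W) ^ 3 * s + W ^ 3 * r)) := by
      have : (p : ℤ) * (ellZ p (-(W ^ 4)) - 4 * ((1 - W) ^ 3 * s + W ^ 3 * r)) =
          ((1 + -(W ^ 4)) ^ p - (1 - W + p * s) ^ 4) + ((1 - W) ^ 4 + W ^ 4 - 1)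
          + (p : ℤ) ^ 2 * (6 * (1 - W) ^ 2 * s ^ 2 + 4 * (1 - W) * p * s ^ 3 + p ^ 2 * s ^ 4
            + 6 * W ^ 2 * r ^ 2 + 4 * W * p * r ^ 3 + p ^ 2 * r ^ 4) := by
        linear_combination h1
      rw [this, ← pow_two]
      exact dvd_add (dvd_add h2 h6) (dvd_mul_right _ _)
    exact (mul_dvd_mul_iff_left hp0).1 h4

/-- The split case. -/
theorem case_split (p n : ℕ) (hp : p.Prime) (hpn : p = 2 * n + 1) (h7 : p ≠ 7) (w : ZMod p)
    (hw : w ^ 2 - w + 2 = 0) : letI := Fact.mk hp; ∑ j ∈ range (n + 1), hh (ZMod p) j = 0 := by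
  have := Fact.mk hp
  have h2 := two_ne (K := ZMod p) p n hp hpn
  have h16 := sixteen_ne h2
  have h7' : ((7 : ℕ) : ZMod p) ≠ 0 := by
    rw [Ne, ZMod.natCast_eq_zero_iff]
    intro h
    exact h7 ((Nat.prime_dvd_prime_iff_eq hp (by norm_num)).1 h)
  push_cast at h7'
  have hne : 2 * w - 1 ≠ 0 := by
    intro h
    apply h7'
    linear_combination 4 * hw - (2 * w - 1) * h
  obtain ⟨W, hWw, hW⟩ := exists_lift p hp w hw hne
  obtain ⟨r, s, v1, v2, v3⟩ := split_values p hp ⟨n, hpn⟩ W hW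
  rw [← ZMod.intCast_zmod_eq_zero_iff_dvd] at v1 v2 v3
  push_cast at v1 v2 v3
  rw [ellZ_cast (K := ZMod p) p n hp hpn, hWw] at v1 v2 v3
  push_cast at v1 v2 v3
  rw [hWw] at v1 v3
  rw [← ellE_eval] at v3
  rw [← dl_n p n hp hpn] at v2
  have H := two_K (K := ZMod p) p n hp hpn
  have H3 := three_K (K := ZMod p) p n hp hpn
  have hL := congrArg (eval (w ^ 2)) (landen_g p n hp hpn H cc_zero (cc_n p n hp hpn) gg_zero)
  simp only [eval_mul, eval_add, eval_sub, eval_pow, eval_one, eval_X, eval_C, eval_ofNat] at hL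
  rw [eval_T n w hw, eval_V, eval_V, ← pow_mul w 2 2, show 2 * 2 = 4 from rfl,
    gg_n p n hp hpn] at hL
  have hC := congrArg (eval (w ^ 4)) (clausen_h p n hp hpn H H3 cc_zero ff_zero
    (cc_n p n hp hpn) gg_zero hh_zero)
  simp only [eval_mul, eval_add, eval_sub, eval_pow, eval_one, eval_X, eval_C, eval_ofNat] at hC
  rw [eval_R n h16 w hw, hh_n p n hp hpn, gg_n p n hp hpn] at hC
  rw [← pow_mul w 2 p, mul_comm 2 p, pow_mul w p 2, ZMod.pow_card] at hL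
  rw [← pow_mul w 4 p, mul_comm 4 p, pow_mul w p 4, ZMod.pow_card] at hC
  have hw0 : 1 - w ≠ 0 := by
    intro h
    have : (2 : ZMod p) = 0 := by linear_combination hw + w * h
    exact h2 this
  have hpow : (1 - w) ^ (2 * n) = 1 := by
    have h1 : (1 - w) ^ (2 * n) * (1 - w) = 1 * (1 - w) := by
      rw [← pow_succ, ← hpn, ZMod.pow_card, one_mul]
    exact mul_right_cancel₀ hw0 h1
  rw [hpow, one_mul] at hL
  set u := (S eN n (cc (ZMod p))).eval (w ^ 4)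
  set g := (S eN n (gg (ZMod p))).eval (w ^ 4)
  set l := (ell p : (ZMod p)[X]).eval (w ^ 2)
  set E := (ellE p : (ZMod p)[X]).eval (w ^ 4)
  set d := dl (ZMod p) n
  have e1 : l = -((s : ZMod p) + 2 * w * r) := by linear_combination v1
  have e2 : d = w * s + (1 - w) * r := by linear_combination v2
  have e3 : E = 4 * ((1 - w) ^ 3 * s + w ^ 3 * r) := by linear_combination v3
  have h1w4 : 1 - w ^ 4 ≠ 0 := by
    have : 1 - w ^ 4 = (1 - w) ^ 4 := by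
      linear_combination (-2 * w ^ 2 + 2 * w - 0) * hw
    rw [this]; exact pow_ne_zero _ hw0
  have h13 : 1 + 3 * w ^ 2 ≠ 0 := by
    intro h
    have h28 : (28 : ZMod p) = 0 := by
      linear_combination (1 + 3 * (1 - w) ^ 2) * h - (9 * w ^ 2 - 9 * w - 12) * hw
    have : (28 : ZMod p) = 2 ^ 2 * 7 := by norm_num
    rw [this] at h28
    exact (mul_ne_zero (pow_ne_zero _ h2) h7') h28
  have hL' : (1 + 3 * w ^ 2) * g = 4 * u * (l + w ^ 2 * d) := by linear_combination hL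
  have key : (1 + 3 * w ^ 2) * (1 - w ^ 4) * ∑ j ∈ range (n + 1), hh (ZMod p) j = 0 := by
    have : (1 + 3 * w ^ 2) * (1 - w ^ 4) * ∑ j ∈ range (n + 1), hh (ZMod p) j =
        u ^ 2 * (4 * (1 - 2 * w ^ 4) * (l + w ^ 2 * d) - (1 + 3 * w ^ 2) * (E - 2 * d * w ^ 4)) := by
      linear_combination (1 + 3 * w ^ 2) * hC + (1 - 2 * w ^ 4) * u * hL'
    rw [this, e1, e2, e3]
    linear_combination u ^ 2 * (s * (-4 + 4 * w - 8 * w ^ 2 + 16 * w ^ 3 - 2 * w ^ 4 - 2 * w ^ 5)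
      + r * (-4 * w - 2 * w ^ 3 + 2 * w ^ 5)) * hw
  rcases mul_eq_zero.1 key with h | h
  · exact absurd h (mul_ne_zero h13 h1w4)
  · exact h

end Pool.Agent.V11294.JO
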